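import Pool.Agent.T2h7.Csp.CorB

/-! Points near which a curve has finite total curvature have one-sided cones of arbitrarily small
slope (local version of `T2h7.Csp.CorB`). -/

set_option autoImplicit false
open Set Complex Topology
open scoped ComplexConjugate

namespace Pool.Agent.T2h53.Sq

open Pool.Agent.H763R2.An (Inj)
open Pool.Agent.T2h7.Csp
open InnerProductGeometry (angle angle_le_angle_add_angle)

variable {c : ℝ → ℂ} {t κ L : ℝ}

/-- finite total curvature near `t` -/
def LFTC (c : ℝ → ℂ) (t : ℝ) : Prop := ∃ K : ℝ, ∃ ρ > 0, ∀ (n : ℕ) (s : ℕ → ℝ),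
  (∀ i ≤ n, s i < s (i + 1)) → t - ρ < s 0 → s (n + 1) < t + ρ →
  ∑ i ∈ Finset.range n, angle (c (s (i + 1)) - c (s i)) (c (s (i + 2)) - c (s (i + 1))) ≤ K

/-- a curve of finite total curvature: just after `t` there is a chord which makes small angles with
all chords between `t` and it -/
theorem LFTC.right (h : LFTC c t) {ε : ℝ} (hε : 0 < ε) :
    ∃ y0 y1, t < y0 ∧ y0 < y1 ∧ y1 < t + 1 ∧ ∀ x y, t < x → x < y → y < y0 →
      angle (c y1 - c y0) (c y - c x) ≤ ε := by
  by_contra hcon
  push Not at hcon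
  obtain ⟨K, δ0, hδ0, hK⟩ := h
  obtain ⟨δ, hδe⟩ : ∃ δ, δ = min δ0 1 := ⟨_, rfl⟩
  have hδ : 0 < δ := by rw [hδe]; exact lt_min hδ0 one_pos
  have hδ1 : δ ≤ 1 := by rw [hδe]; exact min_le_right _ _
  have hδ2 : δ ≤ δ0 := by rw [hδe]; exact min_le_left _ _
  have key : ∀ N : ℕ, ∃ (n : ℕ) (s : ℕ → ℝ), (∀ i ≤ n, s i < s (i + 1)) ∧ t < s 0 ∧
      s (n + 1) < t + δ ∧ N * ε ≤ ∑ i ∈ Finset.range n, angle
        (c (s (i + 1)) - c (s i)) (c (s (i + 2)) - c (s (i + 1))) := by
    intro N
    induction N with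
    | zero =>
      refine ⟨0, fun i => t + (i + 1 : ℝ) * (δ / 4), fun i hi => ?_, ?_, ?_, ?_⟩
      · push_cast; nlinarith
      · push_cast; nlinarith
      · push_cast; nlinarith
      · simp
    | succ N ih =>
      obtain ⟨n, s, h1, h2, h3, h4⟩ := ih
      obtain ⟨x, y, x1, x2, x3, x4⟩ := hcon (s 0) (s 1) h2 (h1 0 (Nat.zero_le _)) (by
        have : ∀ m, 1 ≤ m → m ≤ n + 1 → s 1 ≤ s m := by
          intro m hm
          induction m, hm using Nat.le_induction with
          | base => exact fun _ => le_rfl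
          | succ m hm ih => exact fun h => (ih (by omega)).trans (h1 m (by omega)).le
        exact (this (n + 1) (by omega) le_rfl).trans_lt (by linarith))
      obtain ⟨s', hs'⟩ : ∃ s' : ℕ → ℝ, s' = fun i => match i with
        | 0 => x
        | 1 => y
        | (j + 2) => s j := ⟨_, rfl⟩
      have e0 : s' 0 = x := by rw [hs']
      have e1 : s' 1 = y := by rw [hs']
      have e2 : ∀ j, s' (j + 2) = s j := fun j => by rw [hs']
      refine ⟨n + 2, s', fun i hi => ?_, by rw [e0]; exact x1, ?_, ?_⟩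
      · rcases i with _ | _ | i
        · rw [e0, zero_add, e1]; exact x2
        · rw [zero_add, e1, show (1 + 1 : ℕ) = 0 + 2 from rfl, e2]; exact x3
        · rw [show i + 1 + 1 + 1 = (i + 1) + 2 from rfl, show i + 1 + 1 = i + 2 from rfl, e2, e2]
          exact h1 i (by omega)
      · rw [show n + 2 + 1 = (n + 1) + 2 from rfl, e2]; exact h3
      · rw [Finset.sum_range_succ', Finset.sum_range_succ']
        have q1 : ∀ i : ℕ, s' (i + 1 + 1 + 2) = s (i + 2) := fun i => e2 (i + 2)
        have q2 : ∀ i : ℕ, s' (i + 1 + 1 + 1) = s (i + 1) := fun i => e2 (i + 1)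
        have q3 : ∀ i : ℕ, s' (i + 1 + 1) = s i := fun i => e2 i
        have q6 : s' (0 + 1) = y := e1
        simp only [q1, q2, q3, q6, e0]
        have tri := angle_le_angle_add_angle (c y - c x) (c (s 0) - c y) (c (s 1) - c (s 0))
        rw [InnerProductGeometry.angle_comm] at x4
        push_cast
        linarith
  obtain ⟨N, hN⟩ := exists_nat_gt (K / ε)
  obtain ⟨n, s, h1, h2, h3, h4⟩ := key N
  have := hK n s h1 (by linarith) (by linarith)
  rw [div_lt_iff₀ hε] at hN
  linarith

/-- the reversed curve has finite total curvature, too -/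
theorem LFTC.rev (h : LFTC c t) : LFTC (fun s => c (-s)) (-t) := by
  obtain ⟨K, δ, hδ, hK⟩ := h
  refine ⟨K, δ, hδ, fun n s h1 h2 h2' => ?_⟩
  obtain ⟨r, hr⟩ : ∃ r : ℕ → ℝ, r = fun i => -s (n + 1 - i) := ⟨_, rfl⟩
  have h3 := hK n r (fun i hi => by
    rw [hr]
    simp only
    have := h1 (n - i) (by omega)
    rw [show n - i + 1 = n + 1 - i by omega] at this
    rw [show n + 1 - (i + 1) = n - i by omega]
    linarith) (by
    rw [hr]
    simp only [Nat.sub_zero]
    linarith) (by
    rw [hr]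
    simp only [Nat.sub_self]
    linarith)
  refine le_trans (le_of_eq ?_) h3
  rw [← Finset.sum_range_reflect]
  refine Finset.sum_congr rfl fun i hi => ?_
  have hi' := Finset.mem_range.1 hi
  rw [hr]
  simp only
  rw [show n + 1 - (i + 1) = n - 1 - i + 1 by omega, show n + 1 - i = n - 1 - i + 2 by omega,
    show n + 1 - (i + 2) = n - 1 - i by omega, InnerProductGeometry.angle_comm,
    ← InnerProductGeometry.angle_neg_neg, neg_sub, neg_sub]

theorem LFTC.cone_right (hc : Continuous c) (J : Inj c) (h : LFTC c t) (hκ : 0 < κ) :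
    ∃ ρ > 0, ∃ v : ℂ, v ≠ 0 ∧ ∀ x y, t ≤ x → x < y → y < t + ρ →
      |(v * (c y - c x)).im| ≤ κ * (v * (c y - c x)).re := by
  obtain ⟨y0, y1, h1, h2, h3, h4⟩ := h.right (Real.arctan_pos.2 hκ)
  refine ⟨y0 - t, by linarith, conj (c y1 - c y0), ?_, fun x y hx hxy hy => ?_⟩
  · rw [map_ne_zero]
    exact fun h => J y0 y1 h2 (by linarith) (sub_eq_zero.1 h).symm
  have h5 : ∀ x, t < x → x < y → |(conj (c y1 - c y0) * (c y - c x)).im| ≤
      κ * (conj (c y1 - c y0) * (c y - c x)).re := fun x hx hxy =>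
    cone_of_angle hκ (h4 x y hx hxy (by linarith))
  rcases eq_or_lt_of_le hx with h6 | h6
  · subst h6
    have c1 : Continuous fun x => |(conj (c y1 - c y0) * (c y - c x)).im| := by fun_prop
    have c2 : Continuous fun x => κ * (conj (c y1 - c y0) * (c y - c x)).re := by fun_prop
    refine le_of_tendsto_of_tendsto ((c1.tendsto t).mono_left nhdsWithin_le_nhds)
      ((c2.tendsto t).mono_left nhdsWithin_le_nhds) (b := 𝓝[>] t) ?_
    filter_upwards [Ioo_mem_nhdsGT hxy] with x hx
    exact h5 x hx.1 hx.2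
  · exact h5 x h6 hxy

/-- **Curves of finite total curvature have one-sided cones of arbitrarily small slope.** -/
theorem LFTC.oneSided (hc : Continuous c) (J : Inj c) (h : LFTC c t) (hκ : 0 < κ) :
    OneSided κ c t := by
  obtain ⟨ρ1, hρ1, v, hv0, hv⟩ := h.cone_right hc J hκ
  have J' : Inj (fun s => c (-s)) := fun x y h1 h2 h =>
    J (-y) (-x) (by linarith) (by linarith) h.symm
  obtain ⟨ρ2, hρ2, u, hu0, hu⟩ := h.rev.cone_right (by fun_prop) J' hκ
  refine ⟨min ρ1 ρ2, lt_min hρ1 hρ2, -u, v, neg_ne_zero.2 hu0, hv0, fun x y h1 h2 h3 => ?_,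
    fun x y h1 h2 h3 => hv x y h1 h2 (by linarith [min_le_left ρ1 ρ2])⟩
  have := hu (-y) (-x) (by linarith) (by linarith) (by linarith [min_le_right ρ1 ρ2])
  simp only [neg_neg] at this
  rw [show -u * (c y - c x) = u * (c x - c y) by ring]
  exact this

end Pool.Agent.T2h53.Sq
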