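import Pool.Agent.N335.Hg.Grand

/-! Labels of small triangles near a cusp with Lipschitz branches. -/

set_option autoImplicit false
open Complex Set Topology Metric Filter

namespace Pool.Agent.T2h53.Sq

open Pool.Agent.H763R2 Pool.Agent.H763R2.An Pool.Agent.N335.Hg
open Pool.Agent.H763R2.Dm (NoSq)
open Pool.Agent.Y765.Sq (Ann exists_int exists_rep TriM tri_fam)

variable {c : ℝ → ℂ} {θ : ℝ → ℝ → ℝ}

/-- near `t` both branches are graphs over the same side, with slopes at most `κ < 1` -/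
structure Fold (c : ℝ → ℂ) (w : ℂ) (κ t ρ : ℝ) : Prop where
  k0 : 0 < κ
  k1 : κ < 1
  r0 : 0 < ρ
  w0 : w ≠ 0
  inc : ∀ x y, t - ρ < x → x ≤ y → y ≤ t → |(w * (c y - c x)).im| ≤ κ * (w * (c y - c x)).re
  out : ∀ x y, t ≤ x → x ≤ y → y < t + ρ → |(w * (c x - c y)).im| ≤ κ * (w * (c x - c y)).re

variable {w : ℂ} {κ t ρ : ℝ}

theorem cone_sum {κ x y : ℝ} (k0 : 0 < κ) (k1 : κ < 1) (h : |y| ≤ κ * x) :
    0 ≤ x ∧ 0 ≤ x + y ∧ 0 ≤ x - y ∧ -(κ * x) ≤ y ∧ y ≤ κ * x := by
  have h1 := abs_le.1 h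
  have hx : 0 ≤ x := by
    by_contra hcon
    push Not at hcon
    have h2 : 0 ≤ κ * x := (abs_nonneg _).trans h
    nlinarith
  have h3 : κ * x ≤ 1 * x := mul_le_mul_of_nonneg_right (by linarith) hx
  exact ⟨hx, by linarith [h1.1], by linarith [h1.2], by linarith [h1.1], h1.2⟩

/-- two orthogonal vectors are not both in the cone -/
theorem no_orth {κ x y : ℝ} (k0 : 0 < κ) (k1 : κ < 1) (h : |y| ≤ κ * x)
    (h' : |x| ≤ κ * y ∨ |x| ≤ κ * -y) : x = 0 ∧ y = 0 := by
  obtain ⟨a1, a2, a3, a4, a5⟩ := cone_sum k0 k1 h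
  rw [abs_of_nonneg a1] at h'
  have hx : x = 0 := by
    apply le_antisymm _ a1
    rcases h' with h' | h'
    · have := mul_le_mul_of_nonneg_left a5 k0.le
      nlinarith
    · have := mul_le_mul_of_nonneg_left a4 k0.le
      nlinarith
  refine ⟨hx, ?_⟩
  rw [hx, mul_zero] at h
  exact abs_eq_zero.1 (le_antisymm h (abs_nonneg _))

/-- the variation is less than `π` if the arc is seen in a half plane -/
theorem Phi_half' (L : Loop c) {z : ℂ} (hz : z ∉ range c) (w : ℂ) {s t : ℝ} (hst : s ≤ t) (α β : ℝ)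
    (h : ∀ τ, s ≤ τ → τ ≤ t → 0 < α * (w * (c τ - z)).re + β * (w * (c τ - z)).im) :
    |Phi c z s t| < Real.pi := by
  refine Phi_half L hz (w := ((α : ℂ) - β * I) * w) hst fun τ hτ => ?_
  have := h τ hτ.1 hτ.2
  rw [mul_assoc]
  simp only [mul_re, sub_re, ofReal_re, ofReal_im, I_re, I_im, sub_im, mul_im] at this ⊢
  linarith

/-- the variation is the difference of the arguments if the arc is seen in the slit plane -/
theorem Phi_slit (L : Loop c) {z : ℂ} (hz : z ∉ range c) (w' : ℂ) {s t : ℝ} (hst : s ≤ t)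
    (h : ∀ τ, s ≤ τ → τ ≤ t → w' * (c τ - z) ∈ slitPlane) :
    Phi c z s t = arg (w' * (c t - z)) - arg (w' * (c s - z)) := by
  obtain ⟨k, hk, ek⟩ := exists_Lg L hz
  have hw : w' ≠ 0 := by
    rintro rfl
    have := h s le_rfl hst
    rw [zero_mul] at this
    simp [slitPlane] at this
  obtain ⟨v, hv⟩ : ∃ v, exp v = w' := ⟨log w', exp_log hw⟩
  have cc := L.cont
  rw [Phi_eq ⟨hk, ek⟩, sub_im]
  have := arg_diff (φ := fun τ => (k τ).im + v.im) (ψ := fun τ => arg (w' * (c τ - z))) hst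
    (by fun_prop) (by
      intro τ hτ
      apply ContinuousAt.continuousWithinAt
      exact (Complex.continuousAt_arg (h τ hτ.1 hτ.2)).comp
        (f := fun τ => w' * (c τ - z)) (by fun_prop)) (fun τ hτ => by
      have h0 : w' * (c τ - z) ≠ 0 := slitPlane_ne_zero (h τ hτ.1 hτ.2)
      have e1 : w' * (c τ - z) = (Real.exp ((v + k τ).re) : ℂ) * exp (((v + k τ).im : ℂ) * I) := by
        rw [ofReal_exp, ← exp_add, re_add_im, exp_add, hv, ek]
      have e2 : w' * (c τ - z) = (‖w' * (c τ - z)‖ : ℂ) * exp ((arg (w' * (c τ - z)) : ℂ) * I) :=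
        (norm_mul_exp_arg_mul_I _).symm
      obtain ⟨j, hj⟩ := ang_eq (Real.exp_pos _) (norm_pos_iff.2 h0) (e1.symm.trans e2)
      refine ⟨j, ?_⟩
      rw [← hj, add_im]
      ring)
  linarith

/-- the coordinates of the triangle -/
theorem tri_coord {q : ℝ × ℝ × ℝ} (w : ℂ) (k5 : c q.2.2 = c q.1 + I * (c (q.1 + q.2.1) - c q.1)) :
    ∃ p r : ℝ, (w * (c (q.1 + q.2.1) - c q.1)).re = p ∧ (w * (c (q.1 + q.2.1) - c q.1)).im = r ∧
      (w * (c q.2.2 - c q.1)).re = -r ∧ (w * (c q.2.2 - c q.1)).im = p ∧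
      (w * (c q.2.2 - c (q.1 + q.2.1))).re = -r - p ∧
      (w * (c q.2.2 - c (q.1 + q.2.1))).im = p - r ∧
      (∀ X, (w * (X - E4 c q)).re = (w * (X - c (q.1 + q.2.1))).re + r ∧
        (w * (X - E4 c q)).im = (w * (X - c (q.1 + q.2.1))).im - p) ∧
      (∀ X, (w * (X - E4 c q)).re = (w * (X - c q.2.2)).re - p ∧
        (w * (X - E4 c q)).im = (w * (X - c q.2.2)).im - r) ∧
      (∀ X, (w * (X - E4 c q)).re = (w * (X - c q.1)).re + r - p ∧
        (w * (X - E4 c q)).im = (w * (X - c q.1)).im - p - r) := by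
  obtain ⟨A, hA⟩ : ∃ A, A = w * (c (q.1 + q.2.1) - c q.1) := ⟨_, rfl⟩
  have e1 : w * (c q.2.2 - c q.1) = I * A := by rw [k5, hA]; ring
  have e2 : w * (c q.2.2 - c (q.1 + q.2.1)) = I * A - A := by rw [k5, hA]; ring
  refine ⟨A.re, A.im, by rw [hA], by rw [hA], ?_, ?_, ?_, ?_, fun X => ?_, fun X => ?_,
    fun X => ?_⟩
  · rw [e1]; simp
  · rw [e1]; simp
  · rw [e2]; simp
  · rw [e2]; simp
  · have : w * (X - E4 c q) = w * (X - c (q.1 + q.2.1)) - I * A := by unfold E4; rw [hA]; ring
    rw [this]; constructor <;> simp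
  · have : w * (X - E4 c q) = w * (X - c q.2.2) - A := by unfold E4; rw [k5, hA]; ring
    rw [this]; constructor <;> simp
  · have : w * (X - E4 c q) = w * (X - c q.1) - A - I * A := by unfold E4; rw [hA]; ring
    rw [this]
    constructor
    · simp; ring
    · simp; ring

/-- the difference of directions seen from `P` -/
theorem l1_half (D : Dirn c θ) (w : ℂ) {x y z : ℝ} (h1 : x < y) (h2 : y ≤ z) (h3 : z < x + 1)
    (α β : ℝ) (h : ∀ τ, y ≤ τ → τ ≤ z → 0 < α * (w * (c τ - c x)).re + β * (w * (c τ - c x)).im) :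
    |θ x z - θ x y| < Real.pi := by
  have hw : ((α : ℂ) - β * I) * w ≠ 0 := by
    intro h0
    have h4 := h y le_rfl h2
    have h5 : (((α : ℂ) - β * I) * w * (c y - c x)).re = α * (w * (c y - c x)).re +
        β * (w * (c y - c x)).im := by
      rw [mul_assoc]
      simp only [mul_re, sub_re, ofReal_re, ofReal_im, I_re, I_im, sub_im, mul_im]
      ring
    rw [h0, zero_mul, zero_re] at h5
    linarith
  obtain ⟨v, hv⟩ : ∃ v, exp v = ((α : ℂ) - β * I) * w := ⟨log _, exp_log hw⟩
  have := close_of_cos (φ := fun y => θ x y + v.im) (Y := Icc y z)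
    isPreconnected_Icc ((D.contR fun y hy => ⟨by linarith [hy.1], by linarith [hy.2]⟩).add
      continuousOn_const) (fun τ hτ => by
      obtain ⟨ρ, hρ, e⟩ := D.ex x τ (by linarith [hτ.1]) (by linarith [hτ.2])
      have h5 : (((α : ℂ) - β * I) * w * (c τ - c x)).re = α * (w * (c τ - c x)).re +
          β * (w * (c τ - c x)).im := by
        rw [mul_assoc]
        simp only [mul_re, sub_re, ofReal_re, ofReal_im, I_re, I_im, sub_im, mul_im]
        ring
      have h6 := h τ hτ.1 hτ.2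
      rw [← h5, ← hv, e, show exp v * (ρ * exp (θ x τ * I)) = ρ * (exp v * exp (θ x τ * I)) by
        ring, ← exp_add, re_ofReal_mul, exp_re] at h6
      have h7 := (mul_pos_iff_of_pos_left hρ).1 h6
      have h8 := (mul_pos_iff_of_pos_left (Real.exp_pos _)).1 h7
      have e6 : (v + θ x τ * I).im = θ x τ + v.im := by simp; ring
      rwa [e6] at h8) (y₀ := y) (y₁ := z) ⟨le_rfl, h2⟩ ⟨h2, le_rfl⟩
  convert this using 2
  ring

theorem l1_of (D : Dirn c θ) (J : Inj c) {δ a : ℝ} (hδ : 0 < δ) {q : ℝ × ℝ × ℝ}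
    (hq : q ∈ Mm c δ a) (h : |θ q.1 (q.1 + q.2.1) - θ q.1 q.2.2| < Real.pi) :
    l1 θ q = Real.pi / 2 := by
  have hπ := Real.pi_pos
  obtain ⟨j, hj⟩ := l1_val D J hδ hq
  rw [abs_lt] at h
  have : j = 0 := int_zero_of (x := l1 θ q - Real.pi / 2) (by linarith)
    (by unfold l1; linarith [h.2]) (by unfold l1; linarith [h.1])
  rw [hj, this]; push_cast; ring

theorem m1_of (L : Loop c) (J : Inj c) (nosq : NoSq (range c)) {δ a : ℝ} (hδ : 0 < δ)
    {q : ℝ × ℝ × ℝ} (hq : q ∈ Mm c δ a) (h : |Phi c (E4 c q) q.1 q.2.2| < Real.pi) :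
    m1 c q = -(Real.pi / 4) := by
  have hπ := Real.pi_pos
  obtain ⟨j, hj⟩ := m1_val L J nosq hδ hq
  unfold m1 at hj ⊢
  rw [abs_lt] at h
  have : j = 0 := int_zero_of (x := Phi c (E4 c q) q.1 q.2.2 + Real.pi / 4) (by linarith)
    (by linarith [h.1]) (by linarith [h.2])
  rw [hj, this]; push_cast; ring

theorem m2_of (L : Loop c) (J : Inj c) (nosq : NoSq (range c)) {δ a : ℝ} (hδ : 0 < δ)
    {q : ℝ × ℝ × ℝ} (hq : q ∈ Mm c δ a) (h : -(3 * Real.pi / 2) < Phi c (E4 c q) q.2.2 (q.1 + q.2.1))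
    (h' : Phi c (E4 c q) q.2.2 (q.1 + q.2.1) < 5 * Real.pi / 2) :
    m2 c q = Real.pi / 2 := by
  have hπ := Real.pi_pos
  obtain ⟨j, hj⟩ := m2_val L J nosq hδ hq
  unfold m2 at hj ⊢
  have : j = 0 := int_zero_of (x := Phi c (E4 c q) q.2.2 (q.1 + q.2.1) - Real.pi / 2)
    (by linarith) (by linarith) (by linarith)
  rw [hj, this]; push_cast; ring

/-- the short end: the labels of a small triangle near a cusp are the standard ones, unless two
vertices are on the first branch and the fourth vertex of the square is between the branches -/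
theorem fold_short (L : Loop c) (J : Inj c) (nosq : NoSq (range c)) (D : Dirn c θ) {δ a : ℝ}
    (hδ : 0 < δ) {q : ℝ × ℝ × ℝ} (hq : q ∈ Mm c δ a) (F : Fold c w κ t ρ)
    (h1 : t - ρ < q.1) (h2 : q.1 + q.2.1 < t + ρ)
    (hg : q.2.2 ≤ t → t ≤ q.1 + q.2.1 → ∀ τ, t ≤ τ → τ ≤ q.1 + q.2.1 →
      (w * (c τ - E4 c q)).re = 0 → 0 < (w * (c τ - E4 c q)).im) :
    l1 θ q = Real.pi / 2 ∧ m1 c q = -(Real.pi / 4) ∧ m2 c q = Real.pi / 2 := by
  have hπ := Real.pi_pos
  have s := Mm_strict J hδ hq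
  have hE := E4_notMem J nosq hδ hq
  have k5 := hq.2.2.2.2
  have k0 := F.k0
  have k1 := F.k1
  obtain ⟨p, r, f1, f2, f3, f4, f5, f6, f7, f8, f9⟩ := tri_coord w k5
  have hpr : ¬ (p = 0 ∧ r = 0) := by
    rintro ⟨rfl, rfl⟩
    have : w * (c (q.1 + q.2.1) - c q.1) = 0 := Complex.ext f1 f2
    rcases mul_eq_zero.1 this with h | h
    · exact F.w0 h
    · exact J q.1 (q.1 + q.2.1) (by linarith) s.2.2 (sub_eq_zero.1 h).symm
  have cinc : ∀ x y, t - ρ < x → x ≤ y → y ≤ t → 0 ≤ (w * (c y - c x)).re ∧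
      0 ≤ (w * (c y - c x)).re + (w * (c y - c x)).im ∧
      0 ≤ (w * (c y - c x)).re - (w * (c y - c x)).im ∧
      -(κ * (w * (c y - c x)).re) ≤ (w * (c y - c x)).im ∧
      (w * (c y - c x)).im ≤ κ * (w * (c y - c x)).re := fun x y g1 g2 g3 =>
    cone_sum k0 k1 (F.inc x y g1 g2 g3)
  have cout : ∀ x y, t ≤ x → x ≤ y → y < t + ρ → 0 ≤ (w * (c x - c y)).re ∧
      0 ≤ (w * (c x - c y)).re + (w * (c x - c y)).im ∧
      0 ≤ (w * (c x - c y)).re - (w * (c x - c y)).im ∧
      -(κ * (w * (c x - c y)).re) ≤ (w * (c x - c y)).im ∧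
      (w * (c x - c y)).im ≤ κ * (w * (c x - c y)).re := fun x y g1 g2 g3 =>
    cone_sum k0 k1 (F.out x y g1 g2 g3)
  have neg : ∀ X Y : ℂ, (w * (X - Y)).re = -(w * (Y - X)).re ∧
      (w * (X - Y)).im = -(w * (Y - X)).im := fun X Y => by
    rw [show w * (X - Y) = -(w * (Y - X)) by ring]; exact ⟨rfl, rfl⟩
  have add : ∀ X Y Z : ℂ, (w * (X - Z)).re = (w * (X - Y)).re + (w * (Y - Z)).re ∧
      (w * (X - Z)).im = (w * (X - Y)).im + (w * (Y - Z)).im := fun X Y Z => by
    rw [show w * (X - Z) = w * (X - Y) + w * (Y - Z) by ring]; exact ⟨rfl, rfl⟩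
  rcases le_or_gt q.2.2 t with hV | hV
  · rcases le_or_gt (q.1 + q.2.1) t with hQ | hQ
    · -- all on the first branch
      exfalso
      have g1 := F.inc q.1 (q.1 + q.2.1) h1 (by linarith) hQ
      have g2 := F.inc q.1 q.2.2 h1 s.1.le hV
      rw [f1, f2] at g1
      rw [f3, f4] at g2
      have := no_orth k0 k1 g1 (Or.inr g2)
      exact hpr this
    · -- `P`, `V` on the first branch, `Q` on the second
      have g2 := F.inc q.1 q.2.2 h1 s.1.le hV
      rw [f3, f4] at g2
      obtain ⟨b1, b2, b3, b4, b5⟩ := cone_sum k0 k1 g2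
      have r0 : r < 0 := by
        rcases eq_or_lt_of_le b1 with h | h
        · exfalso
          apply hpr
          have hr : r = 0 := by linarith
          rw [hr, neg_zero, mul_zero] at g2
          exact ⟨abs_eq_zero.1 (le_antisymm g2 (abs_nonneg _)), hr⟩
        · linarith
      have hpr1 : p < -r := by nlinarith
      have hpr2 : r < p := by nlinarith
      refine ⟨l1_of D J hδ hq ?_, m1_of L J nosq hδ hq ?_, ?_⟩
      · -- directions from `P`, functional x - y
        refine l1_half D w s.1 s.2.1.le s.2.2 1 (-1) fun τ g3 g4 => ?_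
        rcases le_or_gt τ t with g | g
        · have c1 := cinc q.2.2 τ (by linarith) g3 g
          have c2 := add (c τ) (c q.2.2) (c q.1)
          rw [c2.1, c2.2, f3, f4]
          linarith [c1.2.2.1]
        · have c1 := cout τ (q.1 + q.2.1) g.le g4 h2
          have c2 := add (c τ) (c (q.1 + q.2.1)) (c q.1)
          rw [c2.1, c2.2, f1, f2]
          linarith [c1.2.2.1]
      · -- the arc `P V` seen from the fourth vertex, functional y - x
        refine Phi_half' L hE w s.1.le (-1) 1 fun τ g3 g4 => ?_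
        have c1 := cinc τ q.2.2 (by linarith) g4 hV
        have c2 := neg (c τ) (c q.2.2)
        rw [(f8 (c τ)).1, (f8 (c τ)).2, c2.1, c2.2]
        linarith [c1.2.2.1]
      · -- the arc `V Q` seen from the fourth vertex
        have hs : ∀ τ, q.2.2 ≤ τ → τ ≤ q.1 + q.2.1 → (-I * w) * (c τ - E4 c q) ∈ slitPlane := by
          intro τ g3 g4
          have e0 : (-I * w) * (c τ - E4 c q) = -I * (w * (c τ - E4 c q)) := by ring
          have e1 : ((-I * w) * (c τ - E4 c q)).re = (w * (c τ - E4 c q)).im := by rw [e0]; simp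
          have e2 : ((-I * w) * (c τ - E4 c q)).im = -(w * (c τ - E4 c q)).re := by rw [e0]; simp
          rw [mem_slitPlane_iff, e1, e2]
          by_cases g5 : (w * (c τ - E4 c q)).re = 0
          · left
            rcases le_or_gt τ t with g | g
            · have c1 := cinc q.2.2 τ (by linarith) g3 g
              rw [(f8 (c τ)).1] at g5
              rw [(f8 (c τ)).2]
              have c3 := c1.2.2.2.1
              have c4 : (w * (c τ - c q.2.2)).re = p := by linarith
              rw [c4] at c3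
              have c5 := c1.1
              rw [c4] at c5
              nlinarith
            · exact hg hV hQ.le τ g.le g4 g5
          · right
            exact neg_ne_zero.2 g5
        have hP := Phi_slit L hE (-I * w) s.2.1.le hs
        have e0 : (-I * w) * (c q.2.2 - E4 c q) = -I * (w * (c q.2.2 - E4 c q)) := by ring
        have e1 : ((-I * w) * (c q.2.2 - E4 c q)).re = -r := by
          rw [e0]
          have := (f8 (c q.2.2)).2
          rw [sub_self, mul_zero, zero_im] at this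
          simp only [neg_mul, neg_re, mul_re, I_re, zero_mul, I_im, one_mul, zero_sub, neg_neg]
          linarith
        have hV' : |arg ((-I * w) * (c q.2.2 - E4 c q))| < Real.pi / 2 := by
          rw [abs_arg_lt_pi_div_two_iff]
          left
          rw [e1]; linarith
        have hQ1 := neg_pi_lt_arg ((-I * w) * (c (q.1 + q.2.1) - E4 c q))
        have hQ2 := arg_le_pi ((-I * w) * (c (q.1 + q.2.1) - E4 c q))
        rw [abs_lt] at hV'
        exact m2_of L J nosq hδ hq (by rw [hP]; linarith [hV'.2]) (by rw [hP]; linarith [hV'.1])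
  · rcases le_or_gt t q.1 with hP | hP
    · -- all on the second branch
      exfalso
      have g1 := F.out q.1 (q.1 + q.2.1) hP (by linarith) h2
      have g2 := F.out q.1 q.2.2 hP s.1.le (by linarith)
      rw [(neg _ _).1, (neg _ _).2, f1, f2] at g1
      rw [(neg _ _).1, (neg _ _).2, f3, f4, neg_neg, abs_neg] at g2
      rw [abs_neg] at g1
      have := no_orth k0 k1 (x := -p) (y := r) g1 (Or.inl (by rw [abs_neg]; exact g2))
      exact hpr ⟨by linarith [this.1], this.2⟩
    · -- `P` on the first branch, `V`, `Q` on the second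
      have g2 := F.out q.2.2 (q.1 + q.2.1) hV.le s.2.1.le h2
      rw [f5, f6] at g2
      obtain ⟨b1, b2, b3, b4, b5⟩ := cone_sum k0 k1 g2
      have a0 : 0 < -r - p := by
        rcases eq_or_lt_of_le b1 with h | h
        · exfalso
          apply hpr
          rw [← h, mul_zero] at g2
          have hr : p - r = 0 := abs_eq_zero.1 (le_antisymm g2 (abs_nonneg _))
          exact ⟨by linarith, by linarith⟩
        · exact h
      have p0 : p < 0 := by nlinarith
      refine ⟨l1_of D J hδ hq ?_, m1_of L J nosq hδ hq ?_, ?_⟩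
      · -- directions from `P`, functional -y
        refine l1_half D w s.1 s.2.1.le s.2.2 0 (-1) fun τ g3 g4 => ?_
        have c1 := cout τ (q.1 + q.2.1) (by linarith) g4 h2
        have c2 := cout q.2.2 τ hV.le g3 (by linarith)
        have c3 := add (c τ) (c (q.1 + q.2.1)) (c q.1)
        have c4 := add (c q.2.2) (c τ) (c (q.1 + q.2.1))
        rw [f2] at c3
        rw [f5, f6] at c4
        have c5 := c1.2.2.2.2
        have c6 := c2.2.2.2.1
        rw [zero_mul, zero_add, neg_one_mul, neg_pos]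
        have c7 : 0 < (1 - κ) * (-r - p) := mul_pos (by linarith) a0
        have c8 : κ * (-r - p) = κ * (w * (c q.2.2 - c τ)).re +
            κ * (w * (c τ - c (q.1 + q.2.1))).re := by rw [c4.1]; ring
        linarith [c4.2, c3.2]
      · -- the arc `P V` seen from the fourth vertex, functional x + y
        refine Phi_half' L hE w s.1.le 1 1 fun τ g3 g4 => ?_
        rcases le_or_gt τ t with g | g
        · have c1 := cinc q.1 τ h1 g3 g
          rw [(f9 (c τ)).1, (f9 (c τ)).2]
          linarith [c1.2.1]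
        · have c1 := cout τ q.2.2 g.le g4 (by linarith)
          rw [(f8 (c τ)).1, (f8 (c τ)).2]
          linarith [c1.2.1]
      · -- the arc `V Q` seen from the fourth vertex, functional y
        have := Phi_half' L hE w s.2.1.le 0 1 fun τ g3 g4 => by
          have c1 := cout τ (q.1 + q.2.1) (by linarith) g4 h2
          have c2 := cout q.2.2 τ hV.le g3 (by linarith)
          have c3 := f7 (c τ)
          have c4 := add (c q.2.2) (c τ) (c (q.1 + q.2.1))
          rw [f5, f6] at c4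
          rw [zero_mul, zero_add, one_mul, c3.2]
          have c5 := c1.2.2.2.1
          have c6 := c2.2.2.2.2
          have c7 : 0 < (1 - κ) * (-r - p) := mul_pos (by linarith) a0
          have c8 : κ * (-r - p) = κ * (w * (c q.2.2 - c τ)).re +
              κ * (w * (c τ - c (q.1 + q.2.1))).re := by rw [c4.1]; ring
          linarith [c4.2]
        rw [abs_lt] at this
        exact m2_of L J nosq hδ hq (by linarith [this.1]) (by linarith [this.2])

/-- the long end with the vertices in the order `Q`, `P`, `V` -/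
theorem fold_long2 (L : Loop c) (J : Inj c) (nosq : NoSq (range c)) {δ a : ℝ}
    (hδ : 0 < δ) {q : ℝ × ℝ × ℝ} (hq : q ∈ Mm c δ a) (F : Fold c w κ t ρ)
    (h1 : t - ρ < q.1 + q.2.1 - 1) (h2 : q.2.2 < t + ρ) {n : ℤ} (hn : n ≠ 0)
    (hw : IsWc c (E4 c q) n) : m2 c q ≠ Real.pi / 2 := by
  intro hm
  have hπ := Real.pi_pos
  have s := Mm_strict J hδ hq
  have hE := E4_notMem J nosq hδ hq
  have k5 := hq.2.2.2.2
  have k0 := F.k0
  have k1 := F.k1
  obtain ⟨p, r, f1, f2, f3, f4, f5, f6, f7, f8, f9⟩ := tri_coord w k5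
  have hpr : ¬ (p = 0 ∧ r = 0) := by
    rintro ⟨rfl, rfl⟩
    have : w * (c (q.1 + q.2.1) - c q.1) = 0 := Complex.ext f1 f2
    rcases mul_eq_zero.1 this with h | h
    · exact F.w0 h
    · exact J q.1 (q.1 + q.2.1) (by linarith) s.2.2 (sub_eq_zero.1 h).symm
  have cinc : ∀ x y, t - ρ < x → x ≤ y → y ≤ t → 0 ≤ (w * (c y - c x)).re ∧
      0 ≤ (w * (c y - c x)).re + (w * (c y - c x)).im ∧
      0 ≤ (w * (c y - c x)).re - (w * (c y - c x)).im ∧
      -(κ * (w * (c y - c x)).re) ≤ (w * (c y - c x)).im ∧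
      (w * (c y - c x)).im ≤ κ * (w * (c y - c x)).re := fun x y g1 g2 g3 =>
    cone_sum k0 k1 (F.inc x y g1 g2 g3)
  have cout : ∀ x y, t ≤ x → x ≤ y → y < t + ρ → 0 ≤ (w * (c x - c y)).re ∧
      0 ≤ (w * (c x - c y)).re + (w * (c x - c y)).im ∧
      0 ≤ (w * (c x - c y)).re - (w * (c x - c y)).im ∧
      -(κ * (w * (c x - c y)).re) ≤ (w * (c x - c y)).im ∧
      (w * (c x - c y)).im ≤ κ * (w * (c x - c y)).re := fun x y g1 g2 g3 =>
    cone_sum k0 k1 (F.out x y g1 g2 g3)
  have neg : ∀ X Y : ℂ, (w * (X - Y)).re = -(w * (Y - X)).re ∧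
      (w * (X - Y)).im = -(w * (Y - X)).im := fun X Y => by
    rw [show w * (X - Y) = -(w * (Y - X)) by ring]; exact ⟨rfl, rfl⟩
  have eQ : c (q.1 + q.2.1 - 1) = c (q.1 + q.2.1) := by
    rw [← L.per (q.1 + q.2.1 - 1)]; congr 1; ring
  have key : |Phi c (E4 c q) (q.1 + q.2.1 - 1) q.2.2| < Real.pi := by
    rcases le_or_gt q.1 t with hP | hP
    · -- `Q`, `P` on the first branch
      have g1 := F.inc (q.1 + q.2.1 - 1) q.1 h1 (by linarith) hP
      rw [eQ, (neg _ _).1, (neg _ _).2, f1, f2, abs_neg] at g1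
      rcases le_or_gt q.2.2 t with hV | hV
      · exfalso
        have g2 := F.inc q.1 q.2.2 (by linarith) s.1.le hV
        rw [f3, f4] at g2
        have := no_orth k0 k1 (x := -p) (y := r) g1 (Or.inr (by rw [abs_neg]; exact g2))
        exact hpr ⟨by linarith [this.1], this.2⟩
      · obtain ⟨b1, b2, b3, b4, b5⟩ := cone_sum k0 k1 g1
        have p0 : p < 0 := by
          rcases eq_or_lt_of_le b1 with h | h
          · exfalso
            apply hpr
            rw [← h, mul_zero] at g1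
            exact ⟨by linarith, abs_eq_zero.1 (le_antisymm g1 (abs_nonneg _))⟩
          · linarith
        have hpr1 : r < -p := by nlinarith
        have hpr2 : p < r := by nlinarith
        refine Phi_half' L hE w (by linarith) 1 1 fun τ g3 g4 => ?_
        rcases le_or_gt τ t with g | g
        · have c1 := cinc (q.1 + q.2.1 - 1) τ h1 g3 g
          rw [eQ] at c1
          rw [(f7 (c τ)).1, (f7 (c τ)).2]
          linarith [c1.2.1]
        · have c1 := cout τ q.2.2 g.le g4 h2
          rw [(f8 (c τ)).1, (f8 (c τ)).2]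
          linarith [c1.2.1]
    · -- `P`, `V` on the second branch
      have g1 := F.out q.1 q.2.2 hP.le s.1.le h2
      rw [(neg _ _).1, (neg _ _).2, f3, f4, neg_neg, abs_neg] at g1
      rcases le_or_gt t (q.1 + q.2.1 - 1) with hQ | hQ
      · exfalso
        have g2 := F.out (q.1 + q.2.1 - 1) q.1 hQ (by linarith) (by linarith)
        rw [eQ, f1, f2] at g2
        have := no_orth k0 k1 g2 (Or.inl g1)
        exact hpr this
      · obtain ⟨b1, b2, b3, b4, b5⟩ := cone_sum k0 k1 g1
        have r0 : 0 < r := by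
          rcases eq_or_lt_of_le b1 with h | h
          · exfalso
            apply hpr
            rw [← h, mul_zero] at g1
            exact ⟨abs_eq_zero.1 (le_antisymm g1 (abs_nonneg _)), h.symm⟩
          · exact h
        have hpr1 : p < r := by nlinarith
        have hpr2 : -r < p := by nlinarith
        refine Phi_half' L hE w (by linarith) 1 (-1) fun τ g3 g4 => ?_
        rcases le_or_gt τ t with g | g
        · have c1 := cinc (q.1 + q.2.1 - 1) τ h1 g3 g
          rw [eQ] at c1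
          rw [(f7 (c τ)).1, (f7 (c τ)).2]
          linarith [c1.2.2.1]
        · have c1 := cout τ q.2.2 g.le g4 h2
          rw [(f8 (c τ)).1, (f8 (c τ)).2]
          linarith [c1.2.2.1]
  have e1 := Phi_wind L hw (q.1 + q.2.1 - 1)
  have e2 := Phi_add L hE (q.1 + q.2.1 - 1) q.2.2 (q.1 + q.2.1)
  rw [sub_add_cancel] at e1
  unfold m2 at hm
  rw [hm, e1] at e2
  rw [abs_lt] at key
  have : n = 0 := int_zero_of (x := Phi c (E4 c q) (q.1 + q.2.1 - 1) q.2.2 + Real.pi / 2)
    (by linarith) (by linarith [key.1]) (by linarith [key.2])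
  exact hn this

/-- the long end with the vertices in the order `V`, `Q`, `P` -/
theorem fold_long3 (L : Loop c) (J : Inj c) (nosq : NoSq (range c)) {δ a : ℝ}
    (hδ : 0 < δ) {q : ℝ × ℝ × ℝ} (hq : q ∈ Mm c δ a) (F : Fold c w κ t ρ)
    (h1 : t - ρ < q.2.2 - 1) (h2 : q.1 < t + ρ) {n : ℤ} (hn : n ≠ 0)
    (hw : IsWc c (E4 c q) n) : ¬ (m1 c q = -(Real.pi / 4) ∧ m2 c q = Real.pi / 2) := by
  rintro ⟨hm1, hm2⟩
  have hπ := Real.pi_pos
  have s := Mm_strict J hδ hq
  have hE := E4_notMem J nosq hδ hq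
  have k5 := hq.2.2.2.2
  have k0 := F.k0
  have k1 := F.k1
  obtain ⟨p, r, f1, f2, f3, f4, f5, f6, f7, f8, f9⟩ := tri_coord w k5
  have hpr : ¬ (p = 0 ∧ r = 0) := by
    rintro ⟨rfl, rfl⟩
    have : w * (c (q.1 + q.2.1) - c q.1) = 0 := Complex.ext f1 f2
    rcases mul_eq_zero.1 this with h | h
    · exact F.w0 h
    · exact J q.1 (q.1 + q.2.1) (by linarith) s.2.2 (sub_eq_zero.1 h).symm
  have cinc : ∀ x y, t - ρ < x → x ≤ y → y ≤ t → 0 ≤ (w * (c y - c x)).re ∧
      0 ≤ (w * (c y - c x)).re + (w * (c y - c x)).im ∧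
      0 ≤ (w * (c y - c x)).re - (w * (c y - c x)).im ∧
      -(κ * (w * (c y - c x)).re) ≤ (w * (c y - c x)).im ∧
      (w * (c y - c x)).im ≤ κ * (w * (c y - c x)).re := fun x y g1 g2 g3 =>
    cone_sum k0 k1 (F.inc x y g1 g2 g3)
  have cout : ∀ x y, t ≤ x → x ≤ y → y < t + ρ → 0 ≤ (w * (c x - c y)).re ∧
      0 ≤ (w * (c x - c y)).re + (w * (c x - c y)).im ∧
      0 ≤ (w * (c x - c y)).re - (w * (c x - c y)).im ∧
      -(κ * (w * (c x - c y)).re) ≤ (w * (c x - c y)).im ∧
      (w * (c x - c y)).im ≤ κ * (w * (c x - c y)).re := fun x y g1 g2 g3 =>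
    cone_sum k0 k1 (F.out x y g1 g2 g3)
  have neg : ∀ X Y : ℂ, (w * (X - Y)).re = -(w * (Y - X)).re ∧
      (w * (X - Y)).im = -(w * (Y - X)).im := fun X Y => by
    rw [show w * (X - Y) = -(w * (Y - X)) by ring]; exact ⟨rfl, rfl⟩
  have eQ : c (q.1 + q.2.1 - 1) = c (q.1 + q.2.1) := by
    rw [← L.per (q.1 + q.2.1 - 1)]; congr 1; ring
  have eV : c (q.2.2 - 1) = c q.2.2 := by
    rw [← L.per (q.2.2 - 1)]; congr 1; ring
  have key : |Phi c (E4 c q) (q.1 + q.2.1 - 1) q.1| < Real.pi := by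
    rcases le_or_gt (q.1 + q.2.1 - 1) t with hQ | hQ
    · -- `V`, `Q` on the first branch
      have g1 := F.inc (q.2.2 - 1) (q.1 + q.2.1 - 1) h1 (by linarith) hQ
      rw [eQ, eV, (neg _ _).1, (neg _ _).2, f5, f6, abs_neg] at g1
      obtain ⟨b1, b2, b3, b4, b5⟩ := cone_sum k0 k1 g1
      have a0 : 0 < r + p := by
        rcases eq_or_lt_of_le b1 with h | h
        · exfalso
          apply hpr
          rw [← h, mul_zero] at g1
          have := abs_eq_zero.1 (le_antisymm g1 (abs_nonneg _))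
          exact ⟨by linarith, by linarith⟩
        · linarith
      have r0 : 0 < r := by nlinarith
      refine Phi_half' L hE w (by linarith) 1 (-1) fun τ g3 g4 => ?_
      rcases le_or_gt τ t with g | g
      · have c1 := cinc (q.1 + q.2.1 - 1) τ (by linarith) g3 g
        rw [eQ] at c1
        rw [(f7 (c τ)).1, (f7 (c τ)).2]
        linarith [c1.2.2.1]
      · have c1 := cout τ q.1 g.le g4 h2
        rw [(f9 (c τ)).1, (f9 (c τ)).2]
        linarith [c1.2.2.1]
    · -- `Q`, `P` on the second branch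
      have g1 := F.out (q.1 + q.2.1 - 1) q.1 hQ.le (by linarith) h2
      rw [eQ, f1, f2] at g1
      obtain ⟨b1, b2, b3, b4, b5⟩ := cone_sum k0 k1 g1
      have p0 : 0 < p := by
        rcases eq_or_lt_of_le b1 with h | h
        · exfalso
          apply hpr
          rw [← h, mul_zero] at g1
          exact ⟨h.symm, abs_eq_zero.1 (le_antisymm g1 (abs_nonneg _))⟩
        · exact h
      have hpr1 : r < p := by nlinarith
      have hpr2 : -p < r := by nlinarith
      refine Phi_half' L hE w (by linarith) (-1) (-1) fun τ g3 g4 => ?_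
      have c1 := cout (q.1 + q.2.1 - 1) τ hQ.le g3 (by linarith)
      rw [eQ] at c1
      have c2 := neg (c τ) (c (q.1 + q.2.1))
      rw [(f7 (c τ)).1, (f7 (c τ)).2, c2.1, c2.2]
      linarith [c1.2.1]
  have e1 := Phi_wind L hw (q.1 + q.2.1 - 1)
  have e2 := Phi_add L hE (q.1 + q.2.1 - 1) q.1 (q.1 + q.2.1)
  have e3 := Phi_add L hE q.1 q.2.2 (q.1 + q.2.1)
  rw [sub_add_cancel] at e1
  unfold m1 at hm1
  unfold m2 at hm2
  rw [hm1, hm2] at e3
  rw [e1, ← e3] at e2
  rw [abs_lt] at key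
  have : n = 0 := int_zero_of (x := Phi c (E4 c q) (q.1 + q.2.1 - 1) q.1 + Real.pi / 4)
    (by linarith) (by linarith [key.1]) (by linarith [key.2])
  exact hn this

end Pool.Agent.T2h53.Sq
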