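import Pool.Agent.T2h53.Sq.FoldC
import Pool.Agent.T2h53.Sq.FoldLab

/-! Near a cusp with Lipschitz branches no small triangle with two vertices on the first branch has
the fourth vertex of the square between the branches (if there are no squares). -/

set_option autoImplicit false
open Complex Set Topology Metric Filter

namespace Pool.Agent.T2h53.Sq

open Pool.Agent.H763R2 Pool.Agent.H763R2.An Pool.Agent.N335.Hg
open Pool.Agent.H763R2.Dm (NoSq)
open Pool.Agent.Y450.Stab (Lip)

variable {c : ℝ → ℂ} {w : ℂ} {κ t ρ : ℝ}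

theorem clamp_lip (r x y : ℝ) : |max (-r) (min x 0) - max (-r) (min y 0)| ≤ |x - y| := by
  refine (abs_max_sub_max_le_max _ _ _ _).trans ?_
  rw [sub_self, abs_zero]
  refine max_le (abs_nonneg _) ((abs_min_sub_min_le_max _ _ _ _).trans ?_)
  rw [sub_self, abs_zero]
  exact max_le le_rfl (abs_nonneg _)

theorem fold_nobad (L : Loop c) (J : Inj c) (nosq : NoSq (range c)) (F : Fold c w κ t ρ) :
    ∃ ρ' > 0, ρ' ≤ ρ ∧ ∀ x u y, t - ρ' < x → x < u → u ≤ t → t ≤ y → y < t + ρ' → y < x + 1 →
      c u = c x + I * (c y - c x) → ∀ τ, t ≤ τ → τ ≤ y →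
      (w * (c τ - (c y + I * (c y - c x)))).re = 0 →
      0 < (w * (c τ - (c y + I * (c y - c x)))).im := by
  have k0 := F.k0
  have k1 := F.k1
  have cc := L.cont
  have r0 := F.r0
  obtain ⟨ρ1, hρ1⟩ : ∃ ρ1, ρ1 = min (ρ / 2) (1 / 4) := ⟨_, rfl⟩
  have p0 : 0 < ρ1 := by rw [hρ1]; positivity
  have p1 : ρ1 ≤ ρ / 2 := by rw [hρ1]; exact min_le_left _ _
  have p2 : ρ1 ≤ 1 / 4 := by rw [hρ1]; exact min_le_right _ _
  obtain ⟨X, hX⟩ : ∃ X : ℝ → ℝ, X = fun σ => (w * (c σ - c t)).re := ⟨_, rfl⟩
  obtain ⟨U, hU⟩ : ∃ U : ℝ → ℝ, U = fun σ => (w * (c σ - c t)).im := ⟨_, rfl⟩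
  have cX : Continuous X := by rw [hX]; fun_prop
  have Xt : X t = 0 := by rw [hX]; simp
  have Ut : U t = 0 := by rw [hU]; simp
  have dX : ∀ a b, (w * (c a - c b)).re = X a - X b := fun a b => by
    rw [hX]; simp only; rw [← sub_re]; congr 1; ring
  have dU : ∀ a b, (w * (c a - c b)).im = U a - U b := fun a b => by
    rw [hU]; simp only; rw [← sub_im]; congr 1; ring
  have inc : ∀ x y, t - ρ < x → x ≤ y → y ≤ t → |U y - U x| ≤ κ * (X y - X x) := fun x y h1 h2 h3 => by
    have := F.inc x y h1 h2 h3
    rwa [dX, dU] at this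
  have out : ∀ x y, t ≤ x → x ≤ y → y < t + ρ → |U x - U y| ≤ κ * (X x - X y) := fun x y h1 h2 h3 => by
    have := F.out x y h1 h2 h3
    rwa [dX, dU] at this
  have eqc : ∀ a b, X a = X b → U a = U b → c a = c b := by
    intro a b h1 h2
    have : w * (c a - c b) = 0 := Complex.ext (by rw [dX, h1, sub_self, zero_re])
      (by rw [dU, h2, sub_self, zero_im])
    rcases mul_eq_zero.1 this with h | h
    · exact absurd h F.w0
    · exact sub_eq_zero.1 h
  have inc0 : ∀ x y, t - ρ < x → x ≤ y → y ≤ t → X x ≤ X y := fun x y h1 h2 h3 => by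
    linarith [(cone_sum k0 k1 (inc x y h1 h2 h3)).1]
  have out0 : ∀ x y, t ≤ x → x ≤ y → y < t + ρ → X y ≤ X x := fun x y h1 h2 h3 => by
    linarith [(cone_sum k0 k1 (out x y h1 h2 h3)).1]
  have incs : ∀ x y, t - ρ < x → x < y → y ≤ t → y < x + 1 → X x < X y := fun x y h1 h2 h3 h4 => by
    refine lt_of_le_of_ne (inc0 x y h1 h2.le h3) fun h => J x y h2 h4 (eqc x y h ?_)
    have := inc x y h1 h2.le h3
    rw [h, sub_self, mul_zero] at this
    linarith [abs_eq_zero.1 (le_antisymm this (abs_nonneg _))]
  have outs : ∀ x y, t ≤ x → x < y → y < t + ρ → y < x + 1 → X y < X x := fun x y h1 h2 h3 h4 => by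
    refine lt_of_le_of_ne (out0 x y h1 h2.le h3) fun h => J x y h2 h4 (eqc x y h.symm ?_)
    have := out x y h1 h2.le h3
    rw [h, sub_self, mul_zero] at this
    linarith [abs_eq_zero.1 (le_antisymm this (abs_nonneg _))]
  have X1 : X (t - ρ1) < 0 := by
    rw [← Xt]; exact incs _ _ (by linarith) (by linarith) le_rfl (by linarith)
  have X2 : X (t + ρ1) < 0 := by
    rw [← Xt]; exact outs _ _ le_rfl (by linarith) (by linarith) (by linarith)
  obtain ⟨r, hr⟩ : ∃ r, r = min (-X (t - ρ1)) (-X (t + ρ1)) := ⟨_, rfl⟩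
  have r0' : 0 < r := by rw [hr]; exact lt_min (by linarith) (by linarith)
  have r1 : X (t - ρ1) ≤ -r := by rw [hr]; linarith [min_le_left (-X (t - ρ1)) (-X (t + ρ1))]
  have r2 : X (t + ρ1) ≤ -r := by rw [hr]; linarith [min_le_right (-X (t - ρ1)) (-X (t + ρ1))]
  obtain ⟨cl, hcl'⟩ : ∃ cl : ℝ → ℝ, cl = fun x => max (-r) (min x 0) := ⟨_, rfl⟩
  have cl1 : ∀ x, -r ≤ cl x := fun x => by rw [hcl']; exact le_max_left _ _
  have cl2 : ∀ x, cl x ≤ 0 := fun x => by rw [hcl']; exact max_le (by linarith) (min_le_right _ _)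
  have cl3 : ∀ x, -r ≤ x → x ≤ 0 → cl x = x := fun x h1 h2 => by
    rw [hcl']; simp only; rw [min_eq_left h2, max_eq_right h1]
  have cl4 : ∀ x, 0 ≤ x → cl x = 0 := fun x h => by
    rw [hcl']; simp only; rw [min_eq_right h, max_eq_right (by linarith)]
  have cl5 : ∀ x y, |cl x - cl y| ≤ |x - y| := fun x y => by rw [hcl']; exact clamp_lip r x y
  have hsu : ∀ x, ∃ σ ∈ Icc (t - ρ1) t, X σ = cl x := fun x => by
    have := intermediate_value_Icc (show t - ρ1 ≤ t by linarith) cX.continuousOn
      (show cl x ∈ Icc (X (t - ρ1)) (X t) from ⟨r1.trans (cl1 x), by rw [Xt]; exact cl2 x⟩)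
    exact this
  have hsl : ∀ x, ∃ σ ∈ Icc t (t + ρ1), X σ = cl x := fun x => by
    have := intermediate_value_Icc' (show t ≤ t + ρ1 by linarith) cX.continuousOn
      (show cl x ∈ Icc (X (t + ρ1)) (X t) from ⟨r2.trans (cl1 x), by rw [Xt]; exact cl2 x⟩)
    exact this
  choose su su1 su2 using hsu
  choose sl sl1 sl2 using hsl
  -- the graphs
  have Ueq : ∀ σ ∈ Icc (t - ρ1) t, -r ≤ X σ → U (su (X σ)) = U σ := by
    intro σ hσ h1
    have h2 : X σ ≤ 0 := by rw [← Xt]; exact inc0 _ _ (by linarith [hσ.1]) hσ.2 le_rfl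
    have e := su2 (X σ)
    rw [cl3 _ h1 h2] at e
    have m := su1 (X σ)
    rcases le_total (su (X σ)) σ with g | g
    · have := inc _ _ (by linarith [m.1]) g hσ.2
      rw [e, sub_self, mul_zero] at this
      linarith [abs_eq_zero.1 (le_antisymm this (abs_nonneg _))]
    · have := inc _ _ (by linarith [hσ.1]) g m.2
      rw [e, sub_self, mul_zero] at this
      linarith [abs_eq_zero.1 (le_antisymm this (abs_nonneg _))]
  have Leq : ∀ σ ∈ Icc t (t + ρ1), -r ≤ X σ → U (sl (X σ)) = U σ := by
    intro σ hσ h1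
    have h2 : X σ ≤ 0 := by rw [← Xt]; exact out0 _ _ le_rfl hσ.1 (by linarith [hσ.2])
    have e := sl2 (X σ)
    rw [cl3 _ h1 h2] at e
    have m := sl1 (X σ)
    rcases le_total (sl (X σ)) σ with g | g
    · have := out _ _ m.1 g (by linarith [hσ.2])
      rw [e, sub_self, mul_zero] at this
      linarith [abs_eq_zero.1 (le_antisymm this (abs_nonneg _))]
    · have := out _ _ hσ.1 g (by linarith [m.2])
      rw [e, sub_self, mul_zero] at this
      linarith [abs_eq_zero.1 (le_antisymm this (abs_nonneg _))]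
  have hU : Lip κ (fun x => U (su x)) := by
    intro x y
    have m1 := su1 x
    have m2 := su1 y
    have h5 := cl5 x y
    rcases le_total (su x) (su y) with g | g
    · have h1 := inc _ _ (by linarith [m1.1]) g m2.2
      rw [su2, su2] at h1
      rw [abs_sub_comm]
      rw [abs_sub_comm (cl x)] at h5
      exact h1.trans (mul_le_mul_of_nonneg_left ((le_abs_self _).trans h5) k0.le)
    · have h1 := inc _ _ (by linarith [m2.1]) g m1.2
      rw [su2, su2] at h1
      exact h1.trans (mul_le_mul_of_nonneg_left ((le_abs_self _).trans h5) k0.le)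
  have hL : Lip κ (fun x => U (sl x)) := by
    intro x y
    have m1 := sl1 x
    have m2 := sl1 y
    have h5 := cl5 x y
    rcases le_total (sl x) (sl y) with g | g
    · have h1 := out _ _ m1.1 g (by linarith [m2.2])
      rw [sl2, sl2] at h1
      exact h1.trans (mul_le_mul_of_nonneg_left ((le_abs_self _).trans h5) k0.le)
    · have h1 := out _ _ m2.1 g (by linarith [m1.2])
      rw [sl2, sl2] at h1
      rw [abs_sub_comm]
      rw [abs_sub_comm (cl x)] at h5
      exact h1.trans (mul_le_mul_of_nonneg_left ((le_abs_self _).trans h5) k0.le)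
  have hU0 : ∀ x, 0 ≤ x → U (su x) = 0 := by
    intro x hx
    have := inc _ _ (by linarith [(su1 x).1]) (su1 x).2 le_rfl
    rw [su2, cl4 x hx, Xt, Ut, sub_self, mul_zero] at this
    linarith [abs_eq_zero.1 (le_antisymm this (abs_nonneg _))]
  have hL0 : ∀ x, 0 ≤ x → U (sl x) = 0 := by
    intro x hx
    have := out _ _ le_rfl (sl1 x).1 (by linarith [(sl1 x).2])
    rw [sl2, cl4 x hx, Xt, Ut, sub_self, mul_zero] at this
    linarith [abs_eq_zero.1 (le_antisymm this (abs_nonneg _))]
  have cu := hU.cont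
  have cl' := hL.cont
  have hne : ∀ x, -r < x → x < 0 → U (su x) ≠ U (sl x) := by
    intro x h1 h2 h3
    have e1 := su2 x
    have e2 := sl2 x
    have e := eqc (su x) (sl x) (by rw [e1, e2]) h3
    rcases eq_or_lt_of_le ((su1 x).2.trans (sl1 x).1) with g | g
    · have : su x = t := le_antisymm (su1 x).2 (by rw [g]; exact (sl1 x).1)
      rw [this, Xt, cl3 x h1.le h2.le] at e1
      linarith
    · exact J _ _ g (by linarith [(su1 x).1, (sl1 x).2]) e
  -- the size of the window
  obtain ⟨ε, hε, hwin⟩ : ∃ ε > 0, ∀ σ, |σ - t| < ε → -(r / 2) < X σ := by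
    have h1 := (cX.tendsto t).eventually (lt_mem_nhds (show -(r / 2) < X t by rw [Xt]; linarith))
    rw [Metric.eventually_nhds_iff] at h1
    obtain ⟨ε, hε, h2⟩ := h1
    exact ⟨ε, hε, fun σ hσ => h2 (by rwa [Real.dist_eq])⟩
  refine ⟨min ε ρ1, lt_min hε p0, (min_le_right _ _).trans (by linarith),
    fun x v y g1 g2 g3 g4 g5 g6 g7 τ g8 g9 g10 => ?_⟩
  have m1 := min_le_left ε ρ1
  have m2 := min_le_right ε ρ1
  by_contra hcon
  push Not at hcon
  -- the fourth vertex
  have hne4 : (w * (c τ - (c y + I * (c y - c x)))).im ≠ 0 := by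
    intro h0
    have h1 : w * (c τ - (c y + I * (c y - c x))) = 0 := Complex.ext g10 h0
    rcases mul_eq_zero.1 h1 with h | h
    · exact F.w0 h
    · refine nosq ⟨c x, c y - c x, sub_ne_zero.2 (J x y (by linarith) g6).symm,
        mem_range_self _, ?_, ?_, ?_⟩
      · rw [add_sub_cancel]; exact mem_range_self _
      · rw [add_sub_cancel, ← sub_eq_zero.1 h]; exact mem_range_self _
      · rw [← g7]; exact mem_range_self _
  have him : (w * (c τ - (c y + I * (c y - c x)))).im < 0 := lt_of_le_of_ne hcon hne4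
  obtain ⟨s, hs⟩ : ∃ s, s = X x := ⟨_, rfl⟩
  obtain ⟨h, hh⟩ : ∃ h, h = X v - X x := ⟨_, rfl⟩
  obtain ⟨k, hk⟩ : ∃ k, k = U v - U x := ⟨_, rfl⟩
  have Ev : w * (c v - c x) = h + k * I := by
    apply Complex.ext
    · rw [dX, ← hh]; simp
    · rw [dU, ← hk]; simp
  have Ey : w * (c y - c x) = k - h * I := by
    have e : w * (c v - c x) = I * (w * (c y - c x)) := by rw [g7]; ring
    rw [Ev] at e
    linear_combination I * e + (w * (c y - c x) - k) * I_sq
  have y1 : X y = s + k := by
    have := congrArg Complex.re Ey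
    rw [dX] at this
    simp at this
    linarith
  have y2 : U y = U x - h := by
    have := congrArg Complex.im Ey
    rw [dU] at this
    simp at this
    linarith
  have ER : w * (c τ - (c y + I * (c y - c x))) = w * (c τ - c y) - (h + k * I) := by
    have : w * (c τ - (c y + I * (c y - c x))) = w * (c τ - c y) - I * (w * (c y - c x)) := by ring
    rw [this, Ey]
    linear_combination h * I_sq
  rw [ER] at g10 him
  have t1 : X τ = s + h + k := by
    rw [sub_re, dX] at g10
    simp at g10
    linarith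
  have t2 : U τ < U x + k - h := by
    rw [sub_im, dU] at him
    simp at him
    linarith
  have h0 : 0 < h := by
    rw [hh]
    linarith [incs x v (by linarith) g2 g3 (by linarith)]
  have hsr : -(r / 2) < s := by
    rw [hs]
    exact hwin x (by rw [abs_lt]; constructor <;> linarith)
  have v0 : s + h ≤ 0 := by
    have := inc0 v t (by linarith) g3 le_rfl
    rw [Xt] at this
    rw [hs, hh]; linarith
  have hkh : |k| ≤ κ * h := by
    rw [hk, hh]; exact inc x v (by linarith) g2.le g3
  have hkh' := abs_le.1 hkh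
  have hκh : κ * h < h := mul_lt_of_lt_one_left h0 k1
  have q1 : U (su s) = U x := by
    rw [hs]; exact Ueq x ⟨by linarith, by linarith⟩ (by linarith)
  have q2 : U (su (s + h)) = U x + k := by
    rw [show s + h = X v by rw [hs, hh]; ring, Ueq v ⟨by linarith, g3⟩ (by linarith), hk]; ring
  have q3 : U (sl (s + k)) = U x - h := by
    rw [← y1, Leq y ⟨g4, by linarith⟩ (by linarith), y2]
  have q4 : U (sl (s + h + k)) = U τ := by
    rw [← t1, Leq τ ⟨g8, by linarith⟩ (by linarith)]
  -- the order of the branches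
  have hul : ∀ x, -r < x → x < 0 → U (sl x) < U (su x) := by
    have hx1 : U (sl (s + k)) < U (su (s + k)) := by
      have := hU s (s + k)
      simp only at this
      rw [show s - (s + k) = -k by ring, abs_neg, q1] at this
      have h3 := (abs_le.1 this).2
      rw [q3]
      have h4 : κ * |k| ≤ κ * (κ * h) := mul_le_mul_of_nonneg_left hkh k0.le
      have h5 : κ * (κ * h) < h := lt_of_le_of_lt (mul_le_mul_of_nonneg_left hκh.le k0.le) hκh
      linarith
    intro x' h1 h2
    by_contra hcon2
    push Not at hcon2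
    have a1 : -r < s + k := by linarith [hkh'.1]
    have a2 : s + k < 0 := by linarith [hkh'.2]
    have cF : Continuous fun z => U (su z) - U (sl z) := cu.sub cl'
    obtain ⟨z, hz, e⟩ := intermediate_value_uIcc (f := fun z => U (su z) - U (sl z))
      (a := x') (b := s + k) cF.continuousOn
      (show (0:ℝ) ∈ uIcc (U (su x') - U (sl x')) (U (su (s + k)) - U (sl (s + k))) from by
        rw [uIcc_of_le (by linarith)]
        exact ⟨by linarith, by linarith⟩)
    have hz1 : -r < z := lt_of_lt_of_le (lt_min h1 a1) hz.1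
    have hz2 : z < 0 := lt_of_le_of_lt hz.2 (max_lt h2 a2)
    exact hne z hz1 hz2 (sub_eq_zero.1 e)
  have hle : ∀ x, U (sl x) ≤ U (su x) := by
    have hcl : IsClosed {x | U (sl x) ≤ U (su x)} := isClosed_le cl' cu
    have h1 : Icc (-r) 0 ⊆ {x | U (sl x) ≤ U (su x)} := by
      rw [← closure_Ioo (by linarith : -r ≠ 0)]
      exact hcl.closure_subset_iff.2 fun x hx => (hul x hx.1 hx.2).le
    intro x
    rcases le_total 0 x with g | g
    · rw [hU0 x g, hL0 x g]
    · rcases le_total (-r) x with g' | g'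
      · exact h1 ⟨g', g⟩
      · have e : cl x = cl (-r) := by
          rw [cl3 (-r) le_rfl (by linarith), hcl']
          simp only
          rw [min_eq_left g, max_eq_left g']
        have e1 : U (su x) = U (su (-r)) := by
          have m := (abs_le.1 (le_refl |U (su x) - U (su (-r))|))
          have : |U (su x) - U (su (-r))| ≤ κ * |cl x - cl (-r)| := by
            have m1 := su1 x
            have m2 := su1 (-r)
            rcases le_total (su x) (su (-r)) with g1 | g1
            · have h1 := inc _ _ (by linarith [m1.1]) g1 m2.2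
              rw [su2, su2] at h1
              rw [abs_sub_comm, abs_sub_comm (cl x)]
              exact h1.trans (mul_le_mul_of_nonneg_left (le_abs_self _) k0.le)
            · have h1 := inc _ _ (by linarith [m2.1]) g1 m1.2
              rw [su2, su2] at h1
              exact h1.trans (mul_le_mul_of_nonneg_left (le_abs_self _) k0.le)
          rw [e, sub_self, abs_zero, mul_zero] at this
          linarith [abs_eq_zero.1 (le_antisymm this (abs_nonneg _))]
        have e2 : U (sl x) = U (sl (-r)) := by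
          have : |U (sl x) - U (sl (-r))| ≤ κ * |cl x - cl (-r)| := by
            have m1 := sl1 x
            have m2 := sl1 (-r)
            rcases le_total (sl x) (sl (-r)) with g1 | g1
            · have h1 := out _ _ m1.1 g1 (by linarith [m2.2])
              rw [sl2, sl2] at h1
              exact h1.trans (mul_le_mul_of_nonneg_left (le_abs_self _) k0.le)
            · have h1 := out _ _ m2.1 g1 (by linarith [m1.2])
              rw [sl2, sl2] at h1
              rw [abs_sub_comm, abs_sub_comm (cl x)]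
              exact h1.trans (mul_le_mul_of_nonneg_left (le_abs_self _) k0.le)
          rw [e, sub_self, abs_zero, mul_zero] at this
          linarith [abs_eq_zero.1 (le_antisymm this (abs_nonneg _))]
        rw [e1, e2]
        exact h1 ⟨le_rfl, by linarith⟩
  have H : Cusp κ (fun x => U (su x)) (fun x => U (sl x)) := ⟨k0.le, k1, hU, hL, hU0, hL0, hle⟩
  refine H.main (r := r) hul ?_ (s := s) (l := h) (d := k) hsr h0 v0 (by rw [q1, q2])
    (by rw [q1, q3]) (by
      rw [show s + k + h = s + h + k by ring, q1, q4]; exact t2)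
  · -- no squares
    intro s' h' k' b1 b2 b3 b4 b5 b6 b7 b8 b9
    rw [show s' + k' + h' = s' + h' + k' by ring] at b6 b9
    have c1 := su2 s'
    have c2 := su2 (s' + h')
    have c3 := sl2 (s' + k')
    have c4 := sl2 (s' + h' + k')
    rw [cl3 _ b1.le (by linarith)] at c1
    rw [cl3 _ (by linarith) b3] at c2
    rw [cl3 _ b4.le b5] at c3
    rw [cl3 _ (by linarith) b6] at c4
    have E1 : w * (c (sl (s' + k')) - c (su s')) = k' - h' * I := by
      apply Complex.ext
      · rw [dX, c3, c1]; simp
      · rw [dU, b8]; simp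
    have E2 : w * (c (su (s' + h')) - c (su s')) = h' + k' * I := by
      apply Complex.ext
      · rw [dX, c2, c1]; simp
      · rw [dU, b7]; simp
    have E3 : w * (c (sl (s' + h' + k')) - c (sl (s' + k'))) = h' + k' * I := by
      apply Complex.ext
      · rw [dX, c4, c3]; simp
      · rw [dU, b9, b8]; simp
    refine nosq ⟨c (su s'), c (sl (s' + k')) - c (su s'), ?_, mem_range_self _, ?_, ?_, ?_⟩
    · intro h0'
      rw [h0', mul_zero] at E1
      have := congrArg Complex.im E1
      simp at this
      linarith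
    · rw [add_sub_cancel]; exact mem_range_self _
    · refine ⟨sl (s' + h' + k'), ?_⟩
      have : w * (c (sl (s' + h' + k'))) = w * (c (su s') + (c (sl (s' + k')) - c (su s')) +
          I * (c (sl (s' + k')) - c (su s'))) := by
        linear_combination E3 - I * E1 + h' * I_sq
      exact mul_left_cancel₀ F.w0 this
    · refine ⟨su (s' + h'), ?_⟩
      have : w * (c (su (s' + h'))) = w * (c (su s') + I * (c (sl (s' + k')) - c (su s'))) := by
        linear_combination E2 - I * E1 + h' * I_sq
      exact mul_left_cancel₀ F.w0 this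

end Pool.Agent.T2h53.Sq
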