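import Mathlib

/-! Small squares in a cusp bounded by two Lipschitz graphs (a Tao-type conserved integral). -/

set_option autoImplicit false
open Set MeasureTheory Filter Topology

namespace Pool.Agent.T2h53.Sq

/-- a one sided quadratic bound for the increments gives monotonicity -/
theorem le_of_quad {f : ℝ → ℝ} {C a b : ℝ} (hab : a ≤ b)
    (h : ∀ s s', a ≤ s → s ≤ s' → s' ≤ b → f s' - f s ≤ C * (s' - s) ^ 2) : f b ≤ f a := by
  have key : ∀ n : ℕ, 0 < n → f b - f a ≤ C * (b - a) ^ 2 / n := by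
    intro n hn
    have hn' : (0:ℝ) < n := by exact_mod_cast hn
    have ind : ∀ i : ℕ, i ≤ n → f (a + i * ((b - a) / n)) - f a ≤ i * (C * ((b - a) / n) ^ 2) := by
      intro i
      induction i with
      | zero => intro _; simp
      | succ i ih =>
        intro hi
        have h1 := ih (by omega)
        have hi' : ((i : ℝ) + 1) ≤ n := by exact_mod_cast hi
        have hd : 0 ≤ (b - a) / n := div_nonneg (by linarith) hn'.le
        have h2 := h (a + i * ((b - a) / n)) (a + (i + 1 : ℕ) * ((b - a) / n))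
          (by have := mul_nonneg (Nat.cast_nonneg (α := ℝ) i) hd; linarith)
          (by push_cast; nlinarith)
          (by
            push_cast
            have : (n : ℝ) * ((b - a) / n) = b - a := by field_simp
            nlinarith [mul_le_mul_of_nonneg_right hi' hd])
        have e : a + (i + 1 : ℕ) * ((b - a) / n) - (a + i * ((b - a) / n)) = (b - a) / n := by
          push_cast; ring
        rw [e] at h2
        push_cast at h2 ⊢
        linarith
    have h1 := ind n le_rfl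
    have e1 : a + n * ((b - a) / n) = b := by field_simp; ring
    rw [e1] at h1
    have e2 : (n : ℝ) * (C * ((b - a) / n) ^ 2) = C * (b - a) ^ 2 / n := by field_simp
    rw [e2] at h1
    exact h1
  by_contra hcon
  push Not at hcon
  have h0 : 0 < f b - f a := by linarith
  obtain ⟨n, hn⟩ := exists_nat_gt (max 1 (C * (b - a) ^ 2 / (f b - f a)))
  have hn1 : (1:ℝ) < n := lt_of_le_of_lt (le_max_left _ _) hn
  have hn2 : C * (b - a) ^ 2 / (f b - f a) < n := lt_of_le_of_lt (le_max_right _ _) hn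
  have hn0 : (0:ℝ) < n := by linarith
  have h1 := key n (by exact_mod_cast hn0)
  rw [div_lt_iff₀ h0] at hn2
  rw [le_div_iff₀ hn0] at h1
  linarith

/-- error of the trapezoid rule for a Lipschitz function -/
theorem trap_err {κ : ℝ} {u : ℝ → ℝ} (hκ : 0 ≤ κ) (hu : ∀ x y, |u x - u y| ≤ κ * |x - y|)
    (x y : ℝ) : |(∫ t in x..y, u t) - (u x + u y) / 2 * (y - x)| ≤ 2 * κ * (y - x) ^ 2 := by
  have cu : Continuous u := by
    have : LipschitzWith (Real.toNNReal κ) u := LipschitzWith.of_dist_le_mul fun a b => by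
      rw [Real.dist_eq, Real.dist_eq, Real.coe_toNNReal _ hκ]; exact hu a b
    exact this.continuous
  have h1 : ‖∫ t in x..y, (u t - u x)‖ ≤ (κ * |y - x|) * |y - x| :=
    intervalIntegral.norm_integral_le_of_norm_le_const fun t ht => by
      rw [Real.norm_eq_abs]
      refine (hu t x).trans (mul_le_mul_of_nonneg_left ?_ hκ)
      rw [uIoc] at ht
      rcases le_total x y with g | g
      · rw [min_eq_left g, max_eq_right g] at ht
        rw [abs_of_pos (by linarith [ht.1]), abs_of_nonneg (by linarith)]; linarith [ht.2]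
      · rw [min_eq_right g, max_eq_left g] at ht
        rw [abs_of_nonpos (by linarith [ht.2]), abs_of_nonpos (by linarith)]; linarith [ht.1]
  have h2 : (∫ t in x..y, (u t - u x)) = (∫ t in x..y, u t) - u x * (y - x) := by
    rw [intervalIntegral.integral_sub (cu.intervalIntegrable _ _)
      (continuous_const.intervalIntegrable _ _), intervalIntegral.integral_const]
    simp only [smul_eq_mul]; ring
  rw [h2, Real.norm_eq_abs] at h1
  have h3 := hu y x
  have e : (∫ t in x..y, u t) - (u x + u y) / 2 * (y - x) =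
    ((∫ t in x..y, u t) - u x * (y - x)) - (u y - u x) / 2 * (y - x) := by ring
  rw [e]
  have h4 : |(u y - u x) / 2 * (y - x)| ≤ κ * |y - x| / 2 * |y - x| := by
    rw [abs_mul, abs_div, abs_two]
    exact mul_le_mul_of_nonneg_right (by linarith) (abs_nonneg _)
  have h5 := abs_sub ((∫ t in x..y, u t) - u x * (y - x)) ((u y - u x) / 2 * (y - x))
  have h6 : |y - x| * |y - x| = (y - x) ^ 2 := by rw [← sq, sq_abs]
  have h7 : 0 ≤ κ * (y - x) ^ 2 := by positivity
  nlinarith

/-- secant slopes -/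
theorem secant {κ : ℝ} {u : ℝ → ℝ} (hκ : 0 ≤ κ) (hu : ∀ x y, |u x - u y| ≤ κ * |x - y|)
    (x y : ℝ) : ∃ p, |p| ≤ κ ∧ u y - u x = p * (y - x) := by
  by_cases h : y - x = 0
  · refine ⟨0, by simpa using hκ, ?_⟩
    have : y = x := by linarith
    rw [this]; ring
  · refine ⟨(u y - u x) / (y - x), ?_, by field_simp⟩
    rw [abs_div, div_le_iff₀ (abs_pos.2 h)]
    exact hu y x

/-- the determinant in the formula for the speed of the fourth vertex is nonnegative -/
theorem N_nonneg {κ p v q : ℝ} (hκ : 0 ≤ κ) (hκ2 : 3 * κ ^ 2 ≤ 1) (hp : |p| ≤ κ) (hv : |v| ≤ κ)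
    (hq : |q| ≤ κ) : 0 ≤ (1 + v) * (1 - q) + p * (v + q) := by
  rw [abs_le] at hp hv hq
  obtain ⟨p1, p2⟩ := hp
  obtain ⟨v1, v2⟩ := hv
  obtain ⟨q1, q2⟩ := hq
  have hκ1 : κ ≤ 1 := by nlinarith
  rcases le_total 0 (v + q) with h | h
  · -- p ≥ -κ
    have h1 : -κ * (v + q) ≤ p * (v + q) := mul_le_mul_of_nonneg_right p1 h
    -- (1+v)(1-q) - κ(v+q) ≥ 0
    have h2 : 0 ≤ (1 + v) * (1 - q) - κ * (v + q) := by
      -- bilinear: in q : coefficient -(1+v) - κ ≤ 0, so q = κ is worst
      have h3 : (1 + v) * (1 - κ) - κ * (v + κ) ≤ (1 + v) * (1 - q) - κ * (v + q) := by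
        nlinarith [mul_nonneg (show 0 ≤ 1 + v + κ by linarith) (show 0 ≤ κ - q by linarith)]
      -- in v : coefficient 1 - 2κ
      have h4 : 0 ≤ (1 + v) * (1 - κ) - κ * (v + κ) := by
        rcases le_total (2 * κ) 1 with g | g
        · nlinarith [mul_nonneg (show 0 ≤ 1 - 2 * κ by linarith) (show 0 ≤ v + κ by linarith)]
        · nlinarith [mul_nonneg (show 0 ≤ 2 * κ - 1 by linarith) (show 0 ≤ κ - v by linarith)]
      linarith
    linarith
  · have h1 : κ * (v + q) ≤ p * (v + q) := by nlinarith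
    have h2 : 0 ≤ (1 + v) * (1 - q) + κ * (v + q) := by
      -- in v : coefficient (1-q) + κ ≥ 0, so v = -κ is worst
      have h3 : (1 - κ) * (1 - q) + κ * (-κ + q) ≤ (1 + v) * (1 - q) + κ * (v + q) := by
        nlinarith [mul_nonneg (show 0 ≤ 1 - q + κ by linarith) (show 0 ≤ v + κ by linarith)]
      have h4 : 0 ≤ (1 - κ) * (1 - q) + κ * (-κ + q) := by
        rcases le_total (2 * κ) 1 with g | g
        · nlinarith [mul_nonneg (show 0 ≤ 1 - 2 * κ by linarith) (show 0 ≤ κ - q by linarith)]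
        · nlinarith [mul_nonneg (show 0 ≤ 2 * κ - 1 by linarith) (show 0 ≤ q + κ by linarith)]
      linarith
    linarith

/-- two Lipschitz functions with a cusp at `0`, continued by `0` to the right -/
structure Cusp (κ : ℝ) (u l : ℝ → ℝ) : Prop where
  k0 : 0 ≤ κ
  k1 : 3 * κ ^ 2 < 1
  hu : ∀ x y, |u x - u y| ≤ κ * |x - y|
  hl : ∀ x y, |l x - l y| ≤ κ * |x - y|
  u0 : ∀ x, 0 ≤ x → u x = 0
  l0 : ∀ x, 0 ≤ x → l x = 0

variable {κ : ℝ} {u l : ℝ → ℝ}

theorem Cusp.lt1 (H : Cusp κ u l) : κ < 1 := by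
  have := H.k0; have := H.k1; nlinarith

theorem Cusp.sq1 (H : Cusp κ u l) : 3 * κ ^ 2 ≤ 1 := H.k1.le

theorem cont_of_lip {u : ℝ → ℝ} (hκ : 0 ≤ κ) (hu : ∀ x y, |u x - u y| ≤ κ * |x - y|) :
    Continuous u := by
  have : LipschitzWith (Real.toNNReal κ) u := LipschitzWith.of_dist_le_mul fun a b => by
    rw [Real.dist_eq, Real.dist_eq, Real.coe_toNNReal _ hκ]; exact hu a b
  exact this.continuous

/-- the function whose zero `h` is the (horizontal) side of the square -/
def FF (u l : ℝ → ℝ) (s h : ℝ) : ℝ := u s - h - l (s + (u (s + h) - u s))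

theorem Cusp.FF_lip (H : Cusp κ u l) {s h h' : ℝ} (hh : h ≤ h') :
    (1 - κ ^ 2) * (h' - h) ≤ FF u l s h - FF u l s h' := by
  unfold FF
  have h1 := H.hl (s + (u (s + h) - u s)) (s + (u (s + h') - u s))
  have h2 := H.hu (s + h) (s + h')
  have e1 : s + (u (s + h) - u s) - (s + (u (s + h') - u s)) = u (s + h) - u (s + h') := by ring
  rw [e1] at h1
  have e2 : |s + h - (s + h')| = h' - h := by
    rw [show s + h - (s + h') = -(h' - h) by ring, abs_neg, abs_of_nonneg (by linarith)]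
  rw [e2] at h2
  have h3 : |l (s + (u (s + h) - u s)) - l (s + (u (s + h') - u s))| ≤ κ * (κ * (h' - h)) :=
    h1.trans (mul_le_mul_of_nonneg_left h2 H.k0)
  have h4 := (abs_le.1 h3).2
  nlinarith

theorem Cusp.ex (H : Cusp κ u l) (s : ℝ) : ∃ h, FF u l s h = 0 := by
  have cu := cont_of_lip H.k0 H.hu
  have cl := cont_of_lip H.k0 H.hl
  have cF : Continuous fun h => FF u l s h := by unfold FF; fun_prop
  have k1 : 0 < 1 - κ ^ 2 := by have := H.k1; nlinarith
  obtain ⟨M, hM⟩ : ∃ M, M = |FF u l s 0| / (1 - κ ^ 2) := ⟨_, rfl⟩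
  have M0 : 0 ≤ M := by rw [hM]; positivity
  have hM' : (1 - κ ^ 2) * M = |FF u l s 0| := by rw [hM]; field_simp
  have h1 := H.FF_lip (s := s) M0
  have h2 := H.FF_lip (s := s) (show -M ≤ 0 by linarith)
  have h3 := abs_le.1 (le_refl |FF u l s 0|)
  obtain ⟨h, -, e⟩ := intermediate_value_Icc' (show -M ≤ M by linarith) cF.continuousOn
    (show (0:ℝ) ∈ Icc (FF u l s M) (FF u l s (-M)) from ⟨by linarith [h3.2], by linarith [h3.1]⟩)
  exact ⟨h, e⟩

theorem Cusp.uniq (H : Cusp κ u l) {s h h' : ℝ} (e : FF u l s h = 0) (e' : FF u l s h' = 0) :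
    h = h' := by
  have k1 : 0 < 1 - κ ^ 2 := by have := H.k1; nlinarith
  rcases le_total h h' with g | g
  · have := H.FF_lip (s := s) g
    nlinarith
  · have := H.FF_lip (s := s) g
    nlinarith

/-- the solution is Lipschitz -/
theorem Cusp.h_lip (H : Cusp κ u l) {h : ℝ → ℝ} (hh : ∀ s, FF u l s (h s) = 0) (s s' : ℝ) :
    |h s' - h s| ≤ 4 * |s' - s| := by
  have k0 := H.k0
  have k3 := H.k1
  have hκ : κ < 3 / 5 := by nlinarith
  have k1 : 0 < 1 - κ ^ 2 := by nlinarith
  have h1 : (1 - κ ^ 2) * |h s' - h s| ≤ |FF u l s (h s') - FF u l s (h s)| := by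
    rcases le_total (h s) (h s') with g | g
    · have := H.FF_lip (s := s) g
      rw [abs_of_nonneg (by linarith)]
      rw [← abs_neg, neg_sub]
      exact this.trans (le_abs_self _)
    · have := H.FF_lip (s := s) g
      rw [abs_of_nonpos (by linarith), neg_sub]
      exact this.trans (le_abs_self _)
  have h2 : |FF u l s (h s') - FF u l s (h s)| ≤ κ * (2 + 2 * κ) * |s' - s| := by
    rw [hh s, sub_zero]
    have e : FF u l s (h s') = FF u l s (h s') - FF u l s' (h s') := by rw [hh s', sub_zero]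
    rw [e]
    unfold FF
    have g1 := H.hu s s'
    have g2 := H.hl (s + (u (s + h s') - u s)) (s' + (u (s' + h s') - u s'))
    have g3 := H.hu (s + h s') (s' + h s')
    have g4 : |s + (u (s + h s') - u s) - (s' + (u (s' + h s') - u s'))| ≤
        (1 + 2 * κ) * |s' - s| := by
      have e1 : s + (u (s + h s') - u s) - (s' + (u (s' + h s') - u s')) =
        (s - s') + ((u (s + h s') - u (s' + h s')) - (u s - u s')) := by ring
      rw [e1]
      have t1 := abs_add_le (s - s') ((u (s + h s') - u (s' + h s')) - (u s - u s'))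
      have t2 := abs_sub (u (s + h s') - u (s' + h s')) (u s - u s')
      rw [show s + h s' - (s' + h s') = s - s' by ring] at g3
      rw [abs_sub_comm s s'] at t1 g3 g1
      linarith
    have g5 : |l (s + (u (s + h s') - u s)) - l (s' + (u (s' + h s') - u s'))| ≤
        κ * ((1 + 2 * κ) * |s' - s|) := g2.trans (mul_le_mul_of_nonneg_left g4 k0)
    have e2 : u s - h s' - l (s + (u (s + h s') - u s)) -
        (u s' - h s' - l (s' + (u (s' + h s') - u s'))) = (u s - u s') -
        (l (s + (u (s + h s') - u s)) - l (s' + (u (s' + h s') - u s'))) := by ring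
    rw [e2]
    have t3 := abs_sub (u s - u s')
      (l (s + (u (s + h s') - u s)) - l (s' + (u (s' + h s') - u s')))
    rw [abs_sub_comm s s'] at g1
    nlinarith
  have h3 : κ * (2 + 2 * κ) ≤ (1 - κ ^ 2) * 4 := by nlinarith
  have h4 : (1 - κ ^ 2) * |h s' - h s| ≤ (1 - κ ^ 2) * (4 * |s' - s|) := by
    refine (h1.trans h2).trans ?_
    have := mul_le_mul_of_nonneg_right h3 (abs_nonneg (s' - s))
    linarith
  exact le_of_mul_le_mul_left h4 k1

/-- the abscissa of the fourth vertex increases -/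
theorem Cusp.mono (H : Cusp κ u l) {h : ℝ → ℝ} (hh : ∀ s, FF u l s (h s) = 0) {s s' : ℝ}
    (hs : s ≤ s') : s + h s + (u (s + h s) - u s) ≤ s' + h s' + (u (s' + h s') - u s') := by
  obtain ⟨p, hp, ep⟩ := secant H.k0 H.hu s s'
  obtain ⟨v, hv, ev⟩ := secant H.k0 H.hu (s + h s) (s' + h s')
  obtain ⟨q, hq, eq⟩ := secant H.k0 H.hl (s + (u (s + h s) - u s)) (s' + (u (s' + h s') - u s'))
  have e1 := hh s
  have e2 := hh s'
  unfold FF at e1 e2
  have hN := N_nonneg H.k0 H.sq1 hp hv hq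
  have hvq : 0 < 1 + v * q := by
    have h1 : |v * q| ≤ κ * κ := by
      rw [abs_mul]; exact mul_le_mul hv hq (abs_nonneg _) H.k0
    have := (abs_le.1 h1).1
    have := H.k1
    nlinarith
  obtain ⟨X, hX⟩ : ∃ X, X = s' + h s' + (u (s' + h s') - u s') - (s + h s + (u (s + h s) - u s)) :=
    ⟨_, rfl⟩
  -- linear algebra
  have key : (1 + v * q) * X = ((1 + v) * (1 - q) + p * (v + q)) * (s' - s) := by
    rw [hX]
    obtain ⟨a, ha⟩ : ∃ a, a = u s := ⟨_, rfl⟩
    obtain ⟨a', ha'⟩ : ∃ a, a = u s' := ⟨_, rfl⟩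
    obtain ⟨b, hb⟩ : ∃ b, b = u (s + h s) := ⟨_, rfl⟩
    obtain ⟨b', hb'⟩ : ∃ b, b = u (s' + h s') := ⟨_, rfl⟩
    rw [← ha, ← hb] at e1
    rw [← ha', ← hb'] at e2
    rw [← ha, ← ha', ← hb, ← hb'] at eq
    rw [← ha, ← ha'] at ep
    rw [← hb, ← hb'] at ev
    rw [← ha, ← ha', ← hb, ← hb']
    -- e1 : a - h s - l(Q) = 0; e2 similarly
    have e3 : h s' - h s = (a' - a) - q * (s' + (b' - a') - (s + (b - a))) := by
      linarith
    obtain ⟨D, hD⟩ : ∃ D, D = s' - s := ⟨_, rfl⟩
    obtain ⟨E, hE⟩ : ∃ E, E = h s' - h s := ⟨_, rfl⟩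
    have f1 : a' - a = p * D := by rw [ep, hD]
    have f2 : b' - b = v * (D + E) := by rw [ev, hD, hE]; ring
    have f3 : E = p * D - q * (D + v * (D + E) - p * D) := by
      have : s' + (b' - a') - (s + (b - a)) = D + v * (D + E) - p * D := by
        rw [← f1, ← f2, hD]; ring
      rw [← hE, this, f1] at e3
      exact e3
    have f4 : s' + h s' + (b' - a') - (s + h s + (b - a)) = D + E + v * (D + E) - p * D := by
      rw [← f1, ← f2, hD, hE]; ring
    rw [f4, ← hD]
    linear_combination (1 + v) * f3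
  have h1 : 0 ≤ (1 + v * q) * X := by
    rw [key]; exact mul_nonneg hN (by linarith)
  have h2 : 0 ≤ X := nonneg_of_mul_nonneg_right h1 hvq
  linarith

/-- Tao's conserved quantity -/
noncomputable def GG (u l : ℝ → ℝ) (h : ℝ → ℝ) (s : ℝ) : ℝ :=
  ((h s) ^ 2 - (u (s + h s) - u s) ^ 2) / 2 - ((∫ t in (0:ℝ)..(s + h s), u t) -
    (∫ t in (0:ℝ)..s, u t)) +
    ((∫ t in (0:ℝ)..(s + h s + (u (s + h s) - u s)), l t) -
      (∫ t in (0:ℝ)..(s + (u (s + h s) - u s)), l t))

/-- the height of the fourth vertex over the lower graph -/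
def PS (u l : ℝ → ℝ) (h : ℝ → ℝ) (s : ℝ) : ℝ :=
  u (s + h s) - h s - l (s + h s + (u (s + h s) - u s))

theorem Cusp.GG_step (H : Cusp κ u l) {h : ℝ → ℝ} (hh : ∀ s, FF u l s (h s) = 0) {s s' : ℝ}
    (hs : s ≤ s') (p1 : 0 ≤ PS u l h s) (p2 : 0 ≤ PS u l h s') :
    GG u l h s' - GG u l h s ≤ 2000 * (s' - s) ^ 2 := by
  have k0 := H.k0
  have k1 := H.k1
  have hκ : κ < 3 / 5 := by nlinarith
  have cu := cont_of_lip H.k0 H.hu
  have cl := cont_of_lip H.k0 H.hl
  have du : ∀ a b : ℝ, (∫ t in (0:ℝ)..b, u t) - (∫ t in (0:ℝ)..a, u t) = ∫ t in a..b, u t :=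
    fun a b => intervalIntegral.integral_interval_sub_left (cu.intervalIntegrable _ _)
      (cu.intervalIntegrable _ _)
  have dl : ∀ a b : ℝ, (∫ t in (0:ℝ)..b, l t) - (∫ t in (0:ℝ)..a, l t) = ∫ t in a..b, l t :=
    fun a b => intervalIntegral.integral_interval_sub_left (cl.intervalIntegrable _ _)
      (cl.intervalIntegrable _ _)
  have mono := H.mono hh hs
  have e1 := hh s
  have e2 := hh s'
  have hlip := H.h_lip hh s s'
  rw [abs_of_nonneg (show 0 ≤ s' - s by linarith)] at hlip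
  unfold FF at e1 e2
  unfold PS at p1 p2
  obtain ⟨x, hx⟩ : ∃ x, x = s := ⟨_, rfl⟩
  obtain ⟨y, hy⟩ : ∃ y, y = u s := ⟨_, rfl⟩
  obtain ⟨y', hy'⟩ : ∃ y, y = u s' := ⟨_, rfl⟩
  obtain ⟨a, ha⟩ : ∃ a, a = h s := ⟨_, rfl⟩
  obtain ⟨a', ha'⟩ : ∃ a, a = h s' := ⟨_, rfl⟩
  obtain ⟨b, hb⟩ : ∃ b, b = u (s + h s) - u s := ⟨_, rfl⟩
  obtain ⟨b', hb'⟩ : ∃ b, b = u (s' + h s') - u s' := ⟨_, rfl⟩
  have q1 : u (s + a) = y + b := by rw [hy, hb, ha]; ring
  have q2 : u (s' + a') = y' + b' := by rw [hy', hb', ha']; ring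
  have q3 : l (s + b) = y - a := by rw [hy, ha, hb]; linarith
  have q4 : l (s' + b') = y' - a' := by rw [hy', ha', hb']; linarith
  have q5 : l (s + a + b) ≤ y + b - a := by
    have : u (s + h s) = y + b := by rw [← q1, ha]
    rw [← hb, this] at p1
    rw [ha]
    linarith
  have q6 : l (s' + a' + b') ≤ y' + b' - a' := by
    have : u (s' + h s') = y' + b' := by rw [← q2, ha']
    rw [← hb', this] at p2
    rw [ha']
    linarith
  have GGe : GG u l h s' - GG u l h s = (a' ^ 2 - b' ^ 2) / 2 - (a ^ 2 - b ^ 2) / 2 -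
      (∫ t in (s + a)..(s' + a'), u t) + (∫ t in s..s', u t) +
      (∫ t in (s + a + b)..(s' + a' + b'), l t) - (∫ t in (s + b)..(s' + b'), l t) := by
    unfold GG
    rw [← hb, ← hb', ← ha, ← ha', ← du (s + a) (s' + a'), ← du s s',
      ← dl (s + a + b) (s' + a' + b'), ← dl (s + b) (s' + b')]
    ring
  rw [← ha, ← ha'] at hlip
  rw [← hb, ← hb', ← ha, ← ha'] at mono
  -- sizes of the differences
  obtain ⟨D, hD⟩ : ∃ D, D = s' - s := ⟨_, rfl⟩
  have D0 : 0 ≤ D := by rw [hD]; linarith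
  rw [← hD] at hlip ⊢
  have hlip := abs_le.1 hlip
  have r1 : |s' + a' - (s + a)| ≤ 5 * D := by
    rw [abs_le]; constructor <;> linarith [hlip.1, hlip.2]
  have lb : |b' - b| ≤ 6 * D := by
    have g1 := H.hu (s' + a') (s + a)
    have g2 := H.hu s' s
    rw [q1, q2] at g1
    rw [← hy, ← hy'] at g2
    rw [abs_of_nonneg (show 0 ≤ s' - s by linarith), ← hD] at g2
    have g3 : κ * |s' + a' - (s + a)| ≤ 3 / 5 * (5 * D) :=
      mul_le_mul hκ.le r1 (abs_nonneg _) (by norm_num)
    have g4 : κ * D ≤ 3 / 5 * D := mul_le_mul_of_nonneg_right hκ.le D0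
    have g5 : b' - b = (y' + b' - (y + b)) - (y' - y) := by ring
    rw [g5]
    have g6 := abs_sub (y' + b' - (y + b)) (y' - y)
    linarith
  have lb' := abs_le.1 lb
  have r2 : |s' + b' - (s + b)| ≤ 7 * D := by
    rw [abs_le]; constructor <;> linarith [lb'.1, lb'.2]
  have r3 : |s' + a' + b' - (s + a + b)| ≤ 11 * D := by
    rw [abs_le]; constructor <;> linarith [lb'.1, lb'.2, hlip.1, hlip.2]
  have sqb : ∀ {z : ℝ} {m : ℝ}, 0 ≤ m → |z| ≤ m * D → 2 * κ * z ^ 2 ≤ 6 / 5 * m ^ 2 * D ^ 2 := by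
    intro z m hm hz
    have h1 : z ^ 2 ≤ (m * D) ^ 2 := by
      rw [← sq_abs]; exact pow_le_pow_left₀ (abs_nonneg _) hz 2
    have h2 : 2 * κ * z ^ 2 ≤ 6 / 5 * z ^ 2 := mul_le_mul_of_nonneg_right (by linarith) (sq_nonneg _)
    nlinarith
  have t1 := abs_le.1 (trap_err k0 H.hu s s')
  have t2 := abs_le.1 (trap_err k0 H.hu (s + a) (s' + a'))
  have t3 := abs_le.1 (trap_err k0 H.hl (s + b) (s' + b'))
  have t4 := abs_le.1 (trap_err k0 H.hl (s + a + b) (s' + a' + b'))
  have v1 := sqb (z := s' - s) (m := 1) (by norm_num) (by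
    rw [hD, one_mul, abs_of_nonneg (by linarith)])
  have v2 := sqb (by norm_num) r1
  have v3 := sqb (by norm_num) r2
  have v4 := sqb (by norm_num) r3
  rw [← hy, ← hy'] at t1
  rw [q1, q2] at t2
  rw [q3, q4] at t3
  -- the last trapezoid
  have m0 : 0 ≤ s' + a' + b' - (s + a + b) := by linarith
  have t5 : (l (s + a + b) + l (s' + a' + b')) / 2 * (s' + a' + b' - (s + a + b)) ≤
      ((y + b - a) + (y' + b' - a')) / 2 * (s' + a' + b' - (s + a + b)) :=
    mul_le_mul_of_nonneg_right (by linarith) m0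
  rw [GGe]
  have id1 : (y + y') / 2 * (s' - s) - ((y + b) + (y' + b')) / 2 * (s' + a' - (s + a)) +
      ((y + b - a) + (y' + b' - a')) / 2 * (s' + a' + b' - (s + a + b)) -
      ((y - a) + (y' - a')) / 2 * (s' + b' - (s + b)) =
      (b' ^ 2 - a' ^ 2) / 2 - (b ^ 2 - a ^ 2) / 2 := by ring
  have D2 : 0 ≤ D ^ 2 := sq_nonneg D
  obtain ⟨t11, t12⟩ := t1
  obtain ⟨t21, t22⟩ := t2
  obtain ⟨t31, t32⟩ := t3
  obtain ⟨t41, t42⟩ := t4
  linarith

/-- an upper bound for an integral of a Lipschitz function -/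
theorem int_upper {f : ℝ → ℝ} (cf : Continuous f) {κ x h A B : ℝ} (h0 : 0 < h)
    (f1 : ∀ t ∈ Icc (0:ℝ) h, f (x + t) ≤ A + κ * t)
    (f2 : ∀ t ∈ Icc (0:ℝ) h, f (x + t) ≤ B + κ * (h - t)) :
    ∫ t in x..(x + h), f t ≤ (A + B) / 2 * h + κ * h ^ 2 / 3 := by
  have e1 : ∫ t in x..(x + h), f t = ∫ t in (0:ℝ)..h, f (x + t) := by
    rw [intervalIntegral.integral_comp_add_left (fun t => f t)]
    simp
  rw [e1]
  have h1 : ∫ t in (0:ℝ)..h, f (x + t) ≤ ∫ t in (0:ℝ)..h,
      (A + ((B - A) / h + 2 * κ) * t - 2 * κ / h * t ^ 2) := by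
    apply intervalIntegral.integral_mono_on h0.le
    · exact (cf.comp (continuous_const.add continuous_id)).intervalIntegrable _ _
    · exact (by fun_prop : Continuous fun t : ℝ =>
        (A + ((B - A) / h + 2 * κ) * t - 2 * κ / h * t ^ 2)).intervalIntegrable _ _
    · intro t ht
      have g1 := f1 t ht
      have g2 := f2 t ht
      have w1 : 0 ≤ 1 - t / h := by
        rw [sub_nonneg, div_le_one h0]; exact ht.2
      have w2 : 0 ≤ t / h := div_nonneg ht.1 h0.le
      have g3 := mul_le_mul_of_nonneg_left g1 w1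
      have g4 := mul_le_mul_of_nonneg_left g2 w2
      have e : A + ((B - A) / h + 2 * κ) * t - 2 * κ / h * t ^ 2 =
        (1 - t / h) * (A + κ * t) + t / h * (B + κ * (h - t)) := by
        field_simp; ring
      rw [e]
      have e' : f (x + t) = (1 - t / h) * f (x + t) + t / h * f (x + t) := by ring
      rw [e']
      exact add_le_add g3 g4
  refine h1.trans (le_of_eq ?_)
  have e2 : ∫ t in (0:ℝ)..h, (A + ((B - A) / h + 2 * κ) * t - 2 * κ / h * t ^ 2) =
      A * h + ((B - A) / h + 2 * κ) * (h ^ 2 / 2) - 2 * κ / h * (h ^ 3 / 3) := by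
    rw [intervalIntegral.integral_sub, intervalIntegral.integral_add,
      intervalIntegral.integral_const, intervalIntegral.integral_const_mul,
      intervalIntegral.integral_const_mul, integral_id, integral_pow]
    · simp only [smul_eq_mul]; ring_nf
    all_goals exact Continuous.intervalIntegrable (by fun_prop) _ _
  rw [e2]
  field_simp
  ring

/-- the conserved quantity is negative -/
theorem Cusp.GG_neg (H : Cusp κ u l) {h : ℝ → ℝ} (hh : ∀ s, FF u l s (h s) = 0) {s : ℝ}
    (h0 : 0 < h s) (p : 0 ≤ PS u l h s) : GG u l h s < 0 := by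
  have k0 := H.k0
  have k1 := H.k1
  have hκ : κ < 3 / 5 := by nlinarith
  have cu := cont_of_lip H.k0 H.hu
  have cl := cont_of_lip H.k0 H.hl
  have e1 := hh s
  unfold FF at e1
  unfold PS at p
  unfold GG
  rw [intervalIntegral.integral_interval_sub_left (cu.intervalIntegrable _ _)
      (cu.intervalIntegrable _ _), intervalIntegral.integral_interval_sub_left
      (cl.intervalIntegrable _ _) (cl.intervalIntegrable _ _)]
  obtain ⟨a, ha⟩ : ∃ a, a = h s := ⟨_, rfl⟩
  obtain ⟨b, hb⟩ : ∃ b, b = u (s + h s) - u s := ⟨_, rfl⟩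
  rw [← hb, ← ha]
  rw [← ha] at h0
  rw [← ha] at hb e1 p
  rw [← hb] at e1 p
  have i1 := int_upper (f := fun t => -u t) cu.neg (κ := κ) (x := s) (h := a) (A := -u s)
    (B := -u (s + a)) h0 (fun t ht => by
      have := (abs_le.1 (H.hu s (s + t))).2
      rw [show s - (s + t) = -t by ring, abs_neg, abs_of_nonneg ht.1] at this
      linarith) (fun t ht => by
      have := (abs_le.1 (H.hu (s + a) (s + t))).2
      rw [show s + a - (s + t) = a - t by ring, abs_of_nonneg (by linarith [ht.2])] at this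
      linarith)
  have i2 := int_upper cl (κ := κ) (x := s + b) (h := a) (A := l (s + b))
    (B := l (s + b + a)) h0 (fun t ht => by
      have := (abs_le.1 (H.hl (s + b + t) (s + b))).2
      rw [show s + b + t - (s + b) = t by ring, abs_of_nonneg ht.1] at this
      linarith) (fun t ht => by
      have := (abs_le.1 (H.hl (s + b + t) (s + b + a))).2
      rw [show s + b + t - (s + b + a) = -(a - t) by ring, abs_neg,
        abs_of_nonneg (by linarith [ht.2])] at this
      linarith)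
  rw [intervalIntegral.integral_neg] at i1
  rw [show s + b + a = s + a + b by ring] at i2
  have e2 : u (s + a) = u s + b := by linarith
  have e3 : l (s + b) = u s - a := by linarith
  rw [e2] at i1 p
  rw [e3] at i2
  have e4 : ∀ z : ℝ, z * a + b * b ≥ z * a := fun z => by nlinarith
  have i3 : (u s - a + l (s + a + b)) / 2 * a ≤ (u s - a + (u s + b - a)) / 2 * a :=
    mul_le_mul_of_nonneg_right (by linarith) h0.le
  have a2 : 0 < a ^ 2 := by positivity
  have b2 : 0 ≤ b ^ 2 := sq_nonneg b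
  nlinarith

theorem Cusp.h_pos (H : Cusp κ u l) {s h : ℝ} (hs : l s < u s) (e : FF u l s h = 0) : 0 < h := by
  by_contra hcon
  push Not at hcon
  have h1 := H.FF_lip (s := s) hcon
  have k1 : 0 < 1 - κ ^ 2 := by have := H.k1; nlinarith
  have h2 : 0 ≤ (1 - κ ^ 2) * (0 - h) := mul_nonneg k1.le (by linarith)
  have h3 : FF u l s 0 = u s - l s := by unfold FF; rw [add_zero, sub_self, add_zero, sub_zero]
  linarith

/-- if the fourth vertex is not below the lower graph, then the square is to the left of the tip -/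
theorem Cusp.left (H : Cusp κ u l) {s h : ℝ} (h0 : 0 < h) (hs0 : s < 0)
    (p : 0 ≤ u (s + h) - h - l (s + h + (u (s + h) - u s))) :
    s + h < 0 ∧ s + h + (u (s + h) - u s) ≤ 0 := by
  have k0 := H.k0
  have k1 := H.k1
  have hκ : κ < 3 / 5 := by nlinarith
  have hκ1 : κ ^ 2 < 1 := by nlinarith
  have a1 : s + h < 0 := by
    by_contra hcon
    push Not at hcon
    rw [H.u0 _ hcon] at p
    have h1 := H.hu s 0
    rw [H.u0 0 le_rfl, sub_zero, sub_zero, abs_of_neg hs0] at h1
    have h2 := abs_le.1 h1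
    rcases le_total 0 (s + h + (0 - u s)) with g | g
    · rw [H.l0 _ g] at p; linarith
    · have h3 := (abs_le.1 (H.hl (s + h + (0 - u s)) 0)).1
      rw [H.l0 0 le_rfl, sub_zero, sub_zero, abs_of_nonpos g] at h3
      have h4 : κ * (-(s + h + (0 - u s))) ≤ κ * (κ * (-s)) :=
        mul_le_mul_of_nonneg_left (by linarith) k0
      nlinarith
  refine ⟨a1, ?_⟩
  by_contra hcon
  push Not at hcon
  rw [H.l0 _ hcon.le] at p
  have h1 := (abs_le.1 (H.hu (s + h) 0)).2
  rw [H.u0 0 le_rfl, sub_zero, sub_zero, abs_of_neg a1] at h1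
  have h2 := (abs_le.1 (H.hu (s + h) s)).2
  rw [show s + h - s = h by ring, abs_of_pos h0] at h2
  have h3 : κ * -(s + h) ≤ κ * (κ * h) := mul_le_mul_of_nonneg_left (by linarith) k0
  nlinarith

/-- Near a cusp bounded by two Lipschitz graphs without small squares there are no small triangles
`P`, `V` (upper graph), `Q` (lower graph) with the fourth vertex of the square between the
graphs. -/
theorem Cusp.main (H : Cusp κ u l) {r : ℝ}
    (ul : ∀ x, -r < x → x < 0 → l x < u x)
    (nosq : ∀ s h k, -r < s → 0 < h → s + h ≤ 0 → -r < s + k → s + k ≤ 0 → s + h + k ≤ 0 →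
      u (s + h) = u s + k → l (s + k) = u s - h → l (s + h + k) = u s + k - h → False)
    {s h k : ℝ} (hs : -(r / 2) < s) (h0 : 0 < h) (sh : s + h ≤ 0) (e1 : u (s + h) = u s + k)
    (e2 : l (s + k) = u s - h) (e3 : l (s + h + k) < u s + k - h) : False := by
  have k0 := H.k0
  have k1 := H.k1
  have hκ : κ < 3 / 5 := by nlinarith
  have hs0 : s < 0 := by linarith
  choose f hf using H.ex
  have ek : u (s + h) - u s = k := by linarith
  have efh : f s = h := H.uniq (hf s) (by unfold FF; rw [ek, e2]; ring)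
  have cf : Continuous f := by
    refine cont_of_lip (κ := 4) (by norm_num) fun x y => ?_
    rw [abs_sub_comm (f x), abs_sub_comm x]
    exact H.h_lip hf x y
  have cu := cont_of_lip H.k0 H.hu
  have cl := cont_of_lip H.k0 H.hl
  have cP : Continuous (PS u l f) := by unfold PS; fun_prop
  have hne : ∀ x, s ≤ x → x < 0 → PS u l f x ≠ 0 := by
    intro x h1 h2 h3
    have fx := H.h_pos (ul x (by linarith) h2) (hf x)
    obtain ⟨g1, g2⟩ := H.left fx h2 h3.ge
    have g3 := abs_le.1 (H.hu (x + f x) x)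
    rw [show x + f x - x = f x by ring, abs_of_pos fx] at g3
    have g4 : κ * f x ≤ 3 / 5 * f x := mul_le_mul_of_nonneg_right hκ.le fx.le
    have e := hf x
    unfold FF at e
    unfold PS at h3
    refine nosq x (f x) (u (x + f x) - u x) (by linarith) fx g1.le (by linarith [g3.1])
      (by linarith [g3.2]) g2 (by ring) (by linarith) (by linarith)
  have ps : 0 < PS u l f s := by
    unfold PS
    rw [efh, ek, e1]
    linarith
  have hp : ∀ x, s ≤ x → x ≤ 0 → 0 ≤ PS u l f x := by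
    intro x h1 h2
    rcases eq_or_lt_of_le h2 with g | g
    · have z0 : FF u l 0 0 = 0 := by
        unfold FF
        simp [H.u0 0 le_rfl, H.l0 0 le_rfl]
      have f0 : f 0 = 0 := H.uniq (hf 0) z0
      rw [g]
      unfold PS
      rw [f0]
      simp [H.u0 0 le_rfl, H.l0 0 le_rfl]
    · by_contra hcon
      push Not at hcon
      obtain ⟨y, hy, e⟩ := intermediate_value_Icc' h1 cP.continuousOn
        (show (0:ℝ) ∈ Icc (PS u l f x) (PS u l f s) from ⟨hcon.le, ps.le⟩)
      exact hne y hy.1 (lt_of_le_of_lt hy.2 g) e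
  have G := le_of_quad (f := GG u l f) (C := 2000) hs0.le fun x y h1 h2 h3 =>
    H.GG_step hf h2 (hp x h1 (h2.trans h3)) (hp y (h1.trans h2) h3)
  have G0 : GG u l f 0 = 0 := by
    have z0 : FF u l 0 0 = 0 := by
      unfold FF
      simp [H.u0 0 le_rfl, H.l0 0 le_rfl]
    have f0 : f 0 = 0 := H.uniq (hf 0) z0
    unfold GG
    rw [f0]
    simp
  have := H.GG_neg hf (s := s) (by rw [efh]; exact h0) ps.le
  linarith

end Pool.Agent.T2h53.Sq
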