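import Pool.Agent.Y450.Lens.Path

/-! Small squares in a cusp bounded by two graphs with Lipschitz constant less than `1` (the
conserved integral of Tao). -/

set_option autoImplicit false
open MeasureTheory intervalIntegral Set

namespace Pool.Agent.T2h53.Sq

open Pool.Agent.Y450.Stab Pool.Agent.Y450.Lens

/-- the function which assigns to a height a lower bound for the later abscissas on this height, if
the path stays to the right of its first point -/
noncomputable def Lay0 (C : ℝ) (X H : ℕ → ℝ) : ℕ → ℝ → ℝ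
  | 0 => fun _ => X 0
  | k + 1 => fun t => max (Lay0 C X H k t) (X (k + 1) - C * |t - H (k + 1)|)

variable {C : ℝ} {X H : ℕ → ℝ}

theorem Lay0.self (hC : 0 ≤ C) (k : ℕ) (t : ℝ) : X k - C * |t - H k| ≤ Lay0 C X H k t := by
  cases k with
  | zero =>
    show X 0 - C * |t - H 0| ≤ X 0
    have := mul_nonneg hC (abs_nonneg (t - H 0))
    linarith
  | succ k => exact le_max_right _ _

theorem Lay0.mono (k : ℕ) (t : ℝ) : Lay0 C X H k t ≤ Lay0 C X H (k + 1) t := le_max_left _ _

theorem Lay0.lip (hC : 0 ≤ C) (k : ℕ) : Lip C (Lay0 C X H k) := by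
  induction k with
  | zero =>
    intro s t
    show |X 0 - X 0| ≤ C * |s - t|
    rw [sub_self, abs_zero]
    exact mul_nonneg hC (abs_nonneg _)
  | succ k ih =>
    intro s t
    have h1 := ih s t
    have h2 := Lay.cone_lip hC (X (k + 1)) (H (k + 1)) s t
    simp only at h2
    show |max (Lay0 C X H k s) (X (k + 1) - C * |s - H (k + 1)|) -
      max (Lay0 C X H k t) (X (k + 1) - C * |t - H (k + 1)|)| ≤ C * |s - t|
    exact (abs_max_sub_max_le_max _ _ _ _).trans (max_le h1 h2)

theorem Lay0.le {n : ℕ} (hX : ∀ k ≤ n, X 0 ≤ X k)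
    (hc : ∀ j k, j ≤ k → k ≤ n → X j - C * |H k - H j| ≤ X k) (k m : ℕ)
    (hk : k ≤ m) (hm : m ≤ n) : Lay0 C X H k (H m) ≤ X m := by
  induction k with
  | zero => exact hX m hm
  | succ k ih => exact max_le (ih (by omega)) (hc (k + 1) m hk hm)

/-- the sum of the areas under a path that never moves to the left on the same level, stays to the
right of its first point and ends on the level `0` -/
theorem layer0 (hC : 0 ≤ C) {n : ℕ} (h0 : ∀ k ≤ n, 0 ≤ H k) (hX : ∀ k ≤ n, X 0 ≤ X k)
    (hc : ∀ j k, j ≤ k → k ≤ n → X j - C * |H k - H j| ≤ X k) (hn : H n = 0) :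
    -(C / 2 * ∑ k ∈ Finset.range n, (H (k + 1) - H k) ^ 2) ≤ Sm X H n := by
  have key : ∀ k ≤ n, X k * H k - Prim (Lay0 C X H k) (H k) -
      C / 2 * ∑ i ∈ Finset.range k, (H (i + 1) - H i) ^ 2 ≤ Sm X H k := by
    intro k
    induction k with
    | zero =>
      intro _
      have h := Prim_le (f := Lay0 C X H 0) (Lay0.lip hC 0).cont (C := X 0) (h0 0 (by omega))
        fun t ht => le_rfl
      have h' := le_Prim (f := Lay0 C X H 0) (Lay0.lip hC 0).cont (C := X 0) (h0 0 (by omega))
        fun t ht => le_rfl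
      have e0 : Prim (Lay0 C X H 0) 0 = 0 := by simp [Prim]
      rw [e0] at h h'
      simp only [Sm, Finset.range_zero, Finset.sum_empty, mul_zero, sub_zero]
      linarith
    | succ k ih =>
      intro hk
      have ih := ih (by omega)
      have hS : Sm X H (k + 1) = Sm X H k + (H k + H (k + 1)) / 2 * (X (k + 1) - X k) := by
        unfold Sm; rw [Finset.sum_range_succ]
      rw [hS, Finset.sum_range_succ]
      have c0 := (Lay0.lip (X := X) (H := H) hC k).cont
      have c1 := (Lay0.lip (X := X) (H := H) hC (k + 1)).cont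
      have e0 : ∀ j, Prim (Lay0 C X H j) 0 = 0 := fun j => by simp [Prim]
      have hk0 := h0 k (by omega)
      have hk1 := h0 (k + 1) hk
      suffices hs : (X k + X (k + 1)) / 2 * (H (k + 1) - H k) - C / 2 * (H (k + 1) - H k) ^ 2 ≤
          Prim (Lay0 C X H (k + 1)) (H (k + 1)) - Prim (Lay0 C X H k) (H k) by
        nlinarith
      rcases le_total (H k) (H (k + 1)) with hu | hd
      · have m1 := Prim_mono c0 c1 hk0 fun t _ => Lay0.mono k t
        rw [e0, e0] at m1
        have m2 := le_Prim c1 (C := (X k + X (k + 1)) / 2 - C / 2 * (H (k + 1) - H k)) hu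
          fun t ht => by
            have s1 := (Lay0.self (C := C) (X := X) (H := H) hC k t).trans (Lay0.mono k t)
            have s2 := Lay0.self (C := C) (X := X) (H := H) hC (k + 1) t
            rw [abs_of_nonneg (by linarith [ht.1] : 0 ≤ t - H k)] at s1
            rw [abs_of_nonpos (by linarith [ht.2] : t - H (k + 1) ≤ 0)] at s2
            nlinarith
        nlinarith
      · have m1 := Prim_mono c0 c1 hk1 fun t _ => Lay0.mono k t
        rw [e0, e0] at m1
        have m2 := Prim_le c0 (C := (X k + X (k + 1)) / 2 + C / 2 * (H k - H (k + 1))) hd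
          fun t ht => by
            have s1 := Lay0.le hX hc k k le_rfl (by omega)
            have s2 := Lay0.le hX hc k (k + 1) (by omega) hk
            have l1 := (abs_le.1 (Lay0.lip (X := X) (H := H) hC k t (H k))).2
            have l2 := (abs_le.1 (Lay0.lip (X := X) (H := H) hC k t (H (k + 1)))).2
            rw [abs_of_nonpos (by linarith [ht.2] : t - H k ≤ 0)] at l1
            rw [abs_of_nonneg (by linarith [ht.1] : 0 ≤ t - H (k + 1))] at l2
            nlinarith
        nlinarith
  have h := key n le_rfl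
  have e0 : Prim (Lay0 C X H n) 0 = 0 := by simp [Prim]
  rw [hn, e0] at h
  linarith

variable {T B : ℝ → ℝ} {L : ℝ}

/-- the potential increases along a family of squares with the last vertex above the lower graph,
if the last vertex ends on the lower graph and stays to the right of its first position -/
theorem path_area0 (hT : Lip L T) (hB : Lip L B) (L0 : 0 ≤ L) (L1 : L < 1) {xs xe : ℝ}
    (hx : xs ≤ xe) {dd ll : ℝ → ℝ} (hS : ∀ x ∈ Icc xs xe, ESq T B x (dd x) (ll x))
    (hH : ∀ x ∈ Icc xs xe, 0 ≤ YY T dd ll x - B (XX dd ll x))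
    (hX : ∀ x ∈ Icc xs xe, XX dd ll xs ≤ XX dd ll x)
    (he : YY T dd ll xe - B (XX dd ll xe) = 0) :
    0 ≤ Pot T B xe (dd xe) (ll xe) - Pot T B xs (dd xs) (ll xs) := by
  set K : ℝ := 1 + 4 / (1 - L) with hK
  have q0 : 0 < 1 - L := by linarith
  have K1 : 1 ≤ K := by rw [hK]; have := div_nonneg (by norm_num : (0:ℝ) ≤ 4) q0.le; linarith
  set C : ℝ := 1 / (1 - L) with hC
  have C0 : 0 ≤ C := by rw [hC]; positivity
  have main : ∀ n : ℕ, 0 < n →
      -((C * (2 * K) ^ 2 / 2 + K ^ 2) * (xe - xs) ^ 2 * (1 / n))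
      ≤ Pot T B xe (dd xe) (ll xe) - Pot T B xs (dd xs) (ll xs) := by
    intro n hn
    have hn' : (0:ℝ) < n := by exact_mod_cast hn
    set r : ℝ := (xe - xs) / n with hr
    have r0 : 0 ≤ r := div_nonneg (by linarith) hn'.le
    set g : ℕ → ℝ := fun k => xs + k * r with hg
    have gn : g n = xe := by
      simp only [hg, hr]
      field_simp
      ring
    have g0 : g 0 = xs := by simp [hg]
    have gs : ∀ k, g (k + 1) = g k + r := fun k => by simp only [hg]; push_cast; ring
    have gm : ∀ k ≤ n, g k ∈ Icc xs xe := by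
      intro k hk
      have hk' : (k:ℝ) ≤ n := by exact_mod_cast hk
      have hk0 : (0:ℝ) ≤ k := Nat.cast_nonneg k
      constructor
      · have := mul_nonneg hk0 r0
        simp only [hg]; linarith
      · have := mul_le_mul_of_nonneg_right hk' r0
        rw [← gn]; simp only [hg]; linarith
    set X : ℕ → ℝ := fun k => XX dd ll (g k) with hXd
    set H : ℕ → ℝ := fun k => YY T dd ll (g k) - B (XX dd ll (g k)) with hHd
    have H0 : ∀ k ≤ n, 0 ≤ H k := fun k hk => hH (g k) (gm k hk)
    have HX : ∀ k ≤ n, X 0 ≤ X k := fun k hk => by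
      simp only [hXd, g0]; exact hX (g k) (gm k hk)
    have hcone : ∀ j k, j ≤ k → k ≤ n → X j - C * |H k - H j| ≤ X k := by
      intro j k hjk hk
      by_cases hXX : X j ≤ X k
      · have := mul_nonneg C0 (abs_nonneg (H k - H j))
        linarith
      push Not at hXX
      have e : g k = g j + (k - j) * r := by simp only [hg]; ring
      have hjk' : (0:ℝ) ≤ k - j := by
        have : (j:ℝ) ≤ k := by exact_mod_cast hjk
        linarith
      have rp : 0 < ((k:ℝ) - j) * r := by
        refine lt_of_le_of_ne (mul_nonneg hjk' r0) fun h => ?_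
        rw [← h, add_zero] at e
        simp only [hXd, e] at hXX
        exact lt_irrefl _ hXX
      have Sj := hS (g j) (gm j (hjk.trans hk))
      have Sk := hS (g k) (gm k hk)
      rw [e] at Sk
      have hc := Sj.cone hT hB L1 Sk rp
      rw [← e] at hc
      have hc' : X j - X k ≤ |YY T dd ll (g k) - YY T dd ll (g j)| := hc
      have hb := hB (X k) (X j)
      rw [abs_of_neg (by linarith : X k - X j < 0)] at hb
      have hh : |YY T dd ll (g k) - YY T dd ll (g j)| ≤ |H k - H j| + |B (X k) - B (X j)| := by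
        have h1 : YY T dd ll (g k) - YY T dd ll (g j) =
            (H k - H j) + (B (X k) - B (X j)) := by
          simp only [hXd, hHd]; ring
        rw [h1]
        exact abs_add_le _ _
      have : (1 - L) * (X j - X k) ≤ |H k - H j| := by linarith
      have := mul_le_mul_of_nonneg_left this C0
      rw [← mul_assoc, show C * (1 - L) = 1 by rw [hC]; field_simp, one_mul] at this
      linarith
    have hlay := layer0 (X := X) (H := H) (C := C) C0 H0 HX hcone (by simp only [hHd, gn]; exact he)
    -- bounds of the steps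
    have hKr : r ≤ K * r := by
      have := mul_le_mul_of_nonneg_right K1 r0
      linarith
    have hst : ∀ k < n, |dd (g (k + 1)) - dd (g k)| + |ll (g (k + 1)) - ll (g k)| ≤ K * r - r := by
      intro k hk
      have S1 := hS (g k) (gm k hk.le)
      have S2 := hS (g (k + 1)) (gm (k + 1) hk)
      rw [gs k] at S2
      have := S1.steps hT hB L0 L1 S2 r0
      rw [← gs k] at this
      have e : K - 1 = 4 / (1 - L) := by rw [hK]; ring
      rw [show K * r - r = (K - 1) * r by ring, e, div_mul_eq_mul_div, le_div_iff₀ q0]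
      linarith
    have sq1 : ∀ z : ℝ, |z| ≤ K * r → z ^ 2 ≤ K ^ 2 * r ^ 2 := by
      intro z hz
      rw [← mul_pow, ← sq_abs z]
      exact pow_le_pow_left₀ (abs_nonneg _) hz 2
    have hXs : ∀ k < n, |X (k + 1) - X k| ≤ K * r := by
      intro k hk
      have hs := hst k hk
      have : XX dd ll (g (k + 1)) - XX dd ll (g k) =
          r + (dd (g (k + 1)) - dd (g k)) + (ll (g (k + 1)) - ll (g k)) := by
        unfold XX
        rw [show g (k + 1) = g k + r from gs k]; ring
      simp only [hXd]
      rw [this]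
      have b1 := abs_le.1 (le_refl |dd (g (k + 1)) - dd (g k)|)
      have b2 := abs_le.1 (le_refl |ll (g (k + 1)) - ll (g k)|)
      have n1 := abs_nonneg (dd (g (k + 1)) - dd (g k))
      have n2 := abs_nonneg (ll (g (k + 1)) - ll (g k))
      rw [abs_le]; constructor <;> linarith [b1.1, b1.2, b2.1, b2.2]
    have hstep : ∀ k < n, (H k + H (k + 1)) / 2 * (X (k + 1) - X k) -
        K ^ 2 * r ^ 2 ≤ Pot T B (g (k + 1)) (dd (g (k + 1))) (ll (g (k + 1))) -
          Pot T B (g k) (dd (g k)) (ll (g k)) := by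
      intro k hk
      have S1 := hS (g k) (gm k hk.le)
      have S2 := hS (g (k + 1)) (gm (k + 1) hk)
      rw [gs k] at S2
      have hcmp := S1.pot_step hT hB L1 S2
      rw [← gs k] at hcmp
      have hs := hst k hk
      have b1 := abs_le.1 (le_refl |dd (g (k + 1)) - dd (g k)|)
      have b2 := abs_le.1 (le_refl |ll (g (k + 1)) - ll (g k)|)
      have n1 := abs_nonneg (dd (g (k + 1)) - dd (g k))
      have n2 := abs_nonneg (ll (g (k + 1)) - ll (g k))
      have f1 : r ^ 2 ≤ K ^ 2 * r ^ 2 := sq1 r (by rw [abs_of_nonneg r0]; exact hKr)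
      have f2 := sq1 (r + (dd (g (k + 1)) - dd (g k))) (by
        rw [abs_le]; constructor <;> linarith [b1.1, b1.2])
      have f3 := sq1 (r + (ll (g (k + 1)) - ll (g k))) (by
        rw [abs_le]; constructor <;> linarith [b2.1, b2.2])
      have f4 := sq1 _ (hXs k hk)
      have tr := (abs_le.1 (hB.trap' (X k) (X (k + 1)))).2
      have m1 := mul_le_mul_of_nonneg_right L1.le (sq_nonneg (X (k + 1) - X k))
      have eY : T (g k) + dd (g k) - ll (g k) = H k + B (X k) := by
        simp only [hHd, hXd, YY]; ring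
      have eY' : T (g (k + 1)) + dd (g (k + 1)) - ll (g (k + 1)) = H (k + 1) + B (X (k + 1)) := by
        simp only [hHd, hXd, YY]; ring
      have eX : g k + dd (g k) + ll (g k) = X k := rfl
      have eX' : g (k + 1) + dd (g (k + 1)) + ll (g (k + 1)) = X (k + 1) := rfl
      rw [eY, eY', eX, eX'] at hcmp
      linarith
    have hH2 : ∀ k < n, (H (k + 1) - H k) ^ 2 ≤ (2 * K) ^ 2 * r ^ 2 := by
      intro k hk
      have hs := hst k hk
      have t1 := hT (g (k + 1)) (g k)
      have t2 := hB (X (k + 1)) (X k)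
      rw [show g (k + 1) - g k = r by rw [gs k]; ring, abs_of_nonneg r0] at t1
      have eX := hXs k hk
      have hz : |H (k + 1) - H k| ≤ 2 * K * r := by
        have b1 := abs_le.1 (le_refl |dd (g (k + 1)) - dd (g k)|)
        have b2 := abs_le.1 (le_refl |ll (g (k + 1)) - ll (g k)|)
        have t1 := abs_le.1 t1
        have t2 := abs_le.1 (t2.trans (mul_le_mul_of_nonneg_left eX L0))
        have u1 : L * r ≤ r := by
          have := mul_le_mul_of_nonneg_right L1.le r0
          linarith
        have u2 : L * (K * r) ≤ K * r := by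
          have := mul_le_mul_of_nonneg_right L1.le (mul_nonneg (by linarith : (0:ℝ) ≤ K) r0)
          linarith
        have h1 : H (k + 1) - H k = (T (g (k + 1)) - T (g k)) + (dd (g (k + 1)) - dd (g k)) -
          (ll (g (k + 1)) - ll (g k)) - (B (X (k + 1)) - B (X k)) := by
          simp only [hHd, hXd, YY]; ring
        rw [h1, abs_le]
        constructor <;> linarith [b1.1, b1.2, b2.1, b2.2, t1.1, t1.2, t2.1, t2.2]
      rw [← mul_pow, ← sq_abs (H (k + 1) - H k)]
      exact pow_le_pow_left₀ (abs_nonneg _) hz 2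
    have hsumH : ∑ k ∈ Finset.range n, (H (k + 1) - H k) ^ 2 ≤ n * ((2 * K) ^ 2 * r ^ 2) := by
      refine (Finset.sum_le_sum fun k hk => hH2 k (Finset.mem_range.1 hk)).trans ?_
      rw [Finset.sum_const, Finset.card_range, nsmul_eq_mul]
    have hsumP := Finset.sum_le_sum fun k hk => hstep k (Finset.mem_range.1 hk)
    rw [Finset.sum_sub_distrib,
      Finset.sum_range_sub (fun k => Pot T B (g k) (dd (g k)) (ll (g k))), Finset.sum_const,
      Finset.card_range, nsmul_eq_mul, gn, g0] at hsumP
    have er : (n:ℝ) * r ^ 2 = (xe - xs) ^ 2 * (1 / n) := by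
      rw [hr]; field_simp
    have hl2 : C / 2 * ∑ k ∈ Finset.range n, (H (k + 1) - H k) ^ 2 ≤
        C / 2 * (n * ((2 * K) ^ 2 * r ^ 2)) :=
      mul_le_mul_of_nonneg_left hsumH (by positivity)
    have e3 : C / 2 * (n * ((2 * K) ^ 2 * r ^ 2)) + n * (K ^ 2 * r ^ 2) =
        (C * (2 * K) ^ 2 / 2 + K ^ 2) * (xe - xs) ^ 2 * (1 / n) := by
      rw [mul_assoc (C * (2 * K) ^ 2 / 2 + K ^ 2), ← er]; ring
    unfold Sm at hlay
    linarith
  -- the limit
  have hlim : Filter.Tendsto (fun n : ℕ =>
      -((C * (2 * K) ^ 2 / 2 + K ^ 2) * (xe - xs) ^ 2 * (1 / (n:ℝ)))) Filter.atTop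
      (nhds (-((C * (2 * K) ^ 2 / 2 + K ^ 2) * (xe - xs) ^ 2 * 0))) :=
    (tendsto_one_div_atTop_nhds_zero_nat.const_mul _).neg
  have := le_of_tendsto hlim (Filter.eventually_atTop.2 ⟨1, fun n hn => main n hn⟩)
  rw [mul_zero, neg_zero] at this
  exact this

/-- two functions with Lipschitz constant `L < 1` and with a cusp at `0`, continued by `0` to the
right -/
structure Cusp (L : ℝ) (T B : ℝ → ℝ) : Prop where
  L0 : 0 ≤ L
  L1 : L < 1
  hT : Lip L T
  hB : Lip L B
  T0 : ∀ x, 0 ≤ x → T x = 0
  B0 : ∀ x, 0 ≤ x → B x = 0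
  le : ∀ x, B x ≤ T x

theorem Cusp.uniq (H : Cusp L T B) {x d l d' l' : ℝ} (S : ESq T B x d l) (S' : ESq T B x d' l') :
    d = d' ∧ l = l' := by
  have S'' : ESq T B (x + 0) d' l' := by rw [add_zero]; exact S'
  have h := S.steps H.hT H.hB H.L0 H.L1 S'' le_rfl
  rw [mul_zero] at h
  have q : 0 < 1 - L := by linarith [H.L1]
  have h2 : |d' - d| + |l' - l| ≤ 0 := by
    by_contra hcon
    push Not at hcon
    have := mul_pos q hcon
    linarith
  have h3 := abs_nonneg (d' - d)
  have h4 := abs_nonneg (l' - l)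
  have h5 := abs_eq_zero.1 (le_antisymm (by linarith) h3)
  have h6 := abs_eq_zero.1 (le_antisymm (by linarith) h4)
  exact ⟨by linarith, by linarith⟩

theorem Cusp.at0 (H : Cusp L T B) : ESq T B 0 0 0 :=
  ⟨le_rfl, by simp, by simp [H.T0 0 le_rfl, H.B0 0 le_rfl]⟩

theorem Cusp.l_pos (_ : Cusp L T B) {x d l : ℝ} (hx : B x < T x) (S : ESq T B x d l) : 0 < l := by
  rcases eq_or_lt_of_le S.l0 with h | h
  · exfalso
    have h3 := S.h3
    have h2 := S.h2
    rw [← h, add_zero] at h3
    have : d = 0 := by linarith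
    rw [this, ← h, add_zero, sub_zero] at h2
    linarith
  · exact h

/-- if the fourth vertex is not below the lower graph, then the square is to the left of the tip -/
theorem Cusp.left (H : Cusp L T B) {s d l : ℝ} (S : ESq T B s d l) (l0 : 0 < l) (hs0 : s < 0)
    (p : 0 ≤ T s + d - l - B (s + d + l)) : s + l < 0 ∧ s + d + l ≤ 0 := by
  have k0 := H.L0
  have k1 := H.L1
  have e3 := S.h3
  have qq : ∀ z, 0 < z → L * z < z := fun z hz => by nlinarith
  have qe : ∀ z, 0 ≤ z → L * z ≤ z := fun z hz => by nlinarith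
  have a1 : s + l < 0 := by
    by_contra hcon
    push Not at hcon
    rw [H.T0 _ hcon] at e3
    have h1 := H.hT s 0
    rw [H.T0 0 le_rfl, sub_zero, sub_zero, abs_of_neg hs0] at h1
    have h2 := abs_le.1 h1
    rcases le_total 0 (s + d + l) with g | g
    · rw [H.B0 _ g] at p; linarith
    · have h3 := (abs_le.1 (H.hB (s + d + l) 0)).1
      rw [H.B0 0 le_rfl, sub_zero, sub_zero, abs_of_nonpos g] at h3
      have h4 : L * -(s + d + l) ≤ -(s + d + l) := qe _ (by linarith)
      have h5 := qq (-s) (by linarith)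
      linarith
  refine ⟨a1, ?_⟩
  by_contra hcon
  push Not at hcon
  rw [H.B0 _ hcon.le] at p
  have h1 := (abs_le.1 (H.hT (s + l) 0)).2
  rw [H.T0 0 le_rfl, sub_zero, sub_zero, abs_of_neg a1, e3] at h1
  have h2 := (abs_le.1 (S.d_le H.hT)).2
  have h3 := qq (-(s + l)) (by linarith)
  have h4 := qq l l0
  linarith

/-- Near a cusp bounded by two graphs with Lipschitz constant `L < 1` without small squares there
are no small triangles `P`, `V` (upper graph), `Q` (lower graph) with the fourth vertex of the square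
between the graphs. -/
theorem Cusp.main (H : Cusp L T B) {r : ℝ}
    (ul : ∀ x, -r < x → x < 0 → B x < T x)
    (nosq : ∀ s l d, -r < s → 0 < l → s + l ≤ 0 → -r < s + d → s + d ≤ 0 → s + d + l ≤ 0 →
      T (s + l) = T s + d → B (s + d) = T s - l → B (s + d + l) = T s + d - l → False)
    {s l d : ℝ} (hs : -(r / 2) < s) (l0 : 0 < l) (sl : s + l ≤ 0) (e1 : T (s + l) = T s + d)
    (e2 : B (s + d) = T s - l) (e3 : B (s + d + l) < T s + d - l) : False := by
  have k0 := H.L0
  have k1 := H.L1
  have hs0 : s < 0 := by linarith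
  have q0 : 0 < 1 - L := by linarith
  choose dd ll hS using fun x => ESq.ex H.hT H.hB H.L0 H.L1 (H.le x)
  have S : ESq T B s d l := ⟨l0.le, e1, e2⟩
  obtain ⟨ed, el⟩ := H.uniq (hS s) S
  have st : ∀ x r : ℝ, 0 ≤ r → |dd (x + r) - dd x| + |ll (x + r) - ll x| ≤ 4 / (1 - L) * r := by
    intro x r hr
    have h := (hS x).steps H.hT H.hB H.L0 H.L1 (hS (x + r)) hr
    rw [div_mul_eq_mul_div, le_div_iff₀ q0]
    linarith
  have hK : 0 ≤ 4 / (1 - L) := by positivity
  have lipd : Lip (4 / (1 - L)) dd := by
    intro x y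
    rcases le_total x y with h | h
    · have := st x (y - x) (by linarith)
      rw [add_sub_cancel] at this
      rw [abs_sub_comm, abs_sub_comm x, abs_of_nonneg (show 0 ≤ y - x by linarith)]
      linarith [abs_nonneg (ll y - ll x)]
    · have := st y (x - y) (by linarith)
      rw [add_sub_cancel] at this
      rw [abs_of_nonneg (show 0 ≤ x - y by linarith)]
      linarith [abs_nonneg (ll x - ll y)]
  have lipl : Lip (4 / (1 - L)) ll := by
    intro x y
    rcases le_total x y with h | h
    · have := st x (y - x) (by linarith)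
      rw [add_sub_cancel] at this
      rw [abs_sub_comm, abs_sub_comm x, abs_of_nonneg (show 0 ≤ y - x by linarith)]
      linarith [abs_nonneg (dd y - dd x)]
    · have := st y (x - y) (by linarith)
      rw [add_sub_cancel] at this
      rw [abs_of_nonneg (show 0 ≤ x - y by linarith)]
      linarith [abs_nonneg (dd x - dd y)]
  have cd : Continuous dd := lipd.cont
  have cl : Continuous ll := lipl.cont
  have cT := H.hT.cont
  have cB := H.hB.cont
  have cH : Continuous fun x => YY T dd ll x - B (XX dd ll x) := by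
    unfold YY XX
    fun_prop
  have cX : Continuous fun x => XX dd ll x := by
    unfold XX
    fun_prop
  have hne : ∀ x, s ≤ x → x < 0 → YY T dd ll x - B (XX dd ll x) ≠ 0 := by
    intro x h1 h2 h3
    have Sx := hS x
    have lx := H.l_pos (ul x (by linarith) h2) Sx
    unfold YY XX at h3
    obtain ⟨g1, g2⟩ := H.left Sx lx h2 h3.ge
    have g3 := abs_le.1 (Sx.d_le H.hT)
    have g4 : L * ll x < ll x := by nlinarith
    exact nosq x (ll x) (dd x) (by linarith) lx g1.le (by linarith [g3.1]) (by linarith [g3.2]) g2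
      Sx.h3 Sx.h2 (by linarith)
  have ps : 0 < YY T dd ll s - B (XX dd ll s) := by
    unfold YY XX
    rw [ed, el]
    linarith
  have u0 := H.uniq (hS 0) H.at0
  have p0 : YY T dd ll 0 - B (XX dd ll 0) = 0 := by
    unfold YY XX
    rw [u0.1, u0.2]
    simp [H.T0 0 le_rfl, H.B0 0 le_rfl]
  have hp : ∀ x, s ≤ x → x ≤ 0 → 0 ≤ YY T dd ll x - B (XX dd ll x) := by
    intro x h1 h2
    rcases eq_or_lt_of_le h2 with g | g
    · rw [g, p0]
    · by_contra hcon
      push Not at hcon
      obtain ⟨y, hy, e⟩ := intermediate_value_Icc' h1 cH.continuousOn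
        (show (0:ℝ) ∈ Icc (YY T dd ll x - B (XX dd ll x)) (YY T dd ll s - B (XX dd ll s)) from
          ⟨hcon.le, ps.le⟩)
      exact hne y hy.1 (lt_of_le_of_lt hy.2 g) e
  -- the point with the smallest abscissa of the fourth vertex
  obtain ⟨z, hz, hz0, hmin⟩ : ∃ z, s ≤ z ∧ z < 0 ∧ ∀ x ∈ Icc z 0, XX dd ll z ≤ XX dd ll x := by
    obtain ⟨z, hz, hzm⟩ := isCompact_Icc.exists_isMinOn (nonempty_Icc.2 hs0.le)
      (f := fun x => XX dd ll x) cX.continuousOn
    rw [isMinOn_iff] at hzm
    rcases eq_or_lt_of_le hz.2 with g | g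
    · refine ⟨s, le_rfl, hs0, fun x hx => ?_⟩
      have h1 := hzm x hx
      rw [g] at h1
      have h2 : XX dd ll 0 = 0 := by unfold XX; rw [u0.1, u0.2]; ring
      rw [h2] at h1
      have h3 := (H.left S l0 hs0 (by linarith)).2
      refine le_trans ?_ h1
      unfold XX
      rw [ed, el]
      exact h3
    · exact ⟨z, hz.1, g, fun x hx => hzm x ⟨hz.1.trans hx.1, hx.2⟩⟩
  have A := path_area0 H.hT H.hB k0 k1 hz0.le (dd := dd) (ll := ll) (fun x _ => hS x)
    (fun x hx => hp x (hz.trans hx.1) hx.2) hmin p0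
  have P0 : Pot T B 0 (dd 0) (ll 0) = 0 := by
    unfold Pot
    rw [u0.1, u0.2]
    simp
  have Pz := (hS z).pot_lower H.hT H.hB
  have hpz := hp z hz hz0.le
  unfold YY XX at hpz
  have lz := H.l_pos (ul z (by linarith) hz0) (hS z)
  have h1 : 0 ≤ ll z * (T z + dd z - ll z - B (z + dd z + ll z)) / 2 := by
    have := mul_nonneg lz.le hpz
    linarith
  have h2 : 0 < (1 - L) * ll z ^ 2 / 2 := by positivity
  linarith

end Pool.Agent.T2h53.Sq
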